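import Pool.Agent.Helper85.FC.Official

/-!
Internal notions and interface statements.
-/

namespace Pool.Agent.Helper85.FC

/-! ### Internal notions -/

/-- Conjunctive queries with languages as constraints and any variable type. -/
structure SCQ (A V : Type) where
  eqs : List (V × Pattern A V)
  regs : List (V × Language A)

def SCQ.Sat {A V : Type} (φ : SCQ A V) (σ : V → List A) : Prop :=
  (∀ e ∈ φ.eqs, σ e.1 = subst σ e.2) ∧ ∀ r ∈ φ.regs, σ r.1 ∈ r.2

def SCQ.Reg {A V : Type} (φ : SCQ A V) : Prop := ∀ r ∈ φ.regs, r.2.IsRegular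

def SCQ.lang {A V : Type} (φ : SCQ A V) (w : V) : Set (List A) :=
  {u | ∃ σ : V → List A, (∀ x, σ x <:+: σ w) ∧ φ.Sat σ ∧ σ w = u}

/-- Systems of word equations with regular constraints, unrestricted variables. -/
structure Sys (A V : Type) where
  eqs : List (Pattern A V × Pattern A V)
  regs : List (V × Language A)

def Sys.Sat {A V : Type} (S : Sys A V) (σ : V → List A) : Prop :=
  (∀ e ∈ S.eqs, subst σ e.1 = subst σ e.2) ∧ ∀ r ∈ S.regs, σ r.1 ∈ r.2

def Sys.Reg {A V : Type} (S : Sys A V) : Prop := ∀ r ∈ S.regs, r.2.IsRegular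

/-- `v` is a product of at most `K` words, each a factor of `u` or of length at most one. -/
def BProd {A : Type} (u : List A) (K : ℕ) (v : List A) : Prop :=
  ∃ l : List (List A), l.length ≤ K ∧ (∀ t ∈ l, t <:+: u ∨ t.length ≤ 1) ∧ v = l.flatten

/-- The factor of length `l` starting at `s` of the infinite word `f`. -/
def run {A : Type} (f : ℕ → A) (s l : ℕ) : List A := (List.range l).map fun i => f (s + i)

/-! ### Interface statements -/

/-- Part A: Kleene's theorem. -/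
def KleeneStatement : Prop :=
  (∀ (A : Type) (P : RegularExpression A), P.matches'.IsRegular) ∧
  (∀ (A : Type) [Fintype A] (L : Language A), L.IsRegular →
    ∃ P : RegularExpression A, P.matches' = L)

/-- Part B: closure under union. -/
def UnionStatement : Prop :=
  ∀ (A : Type) [Fintype A] (l : List (SCQ A ℕ)), (∀ φ ∈ l, φ.Reg) →
    ∃ ψ : SCQ A ℕ, ψ.Reg ∧ ψ.lang 0 = {u | ∃ φ ∈ l, u ∈ φ.lang 0}

/-- Part F: general word equations between safe variables. -/
def LeviStatement : Prop :=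
  ∀ (A : Type) [Fintype A] (V : Type) [Finite V] (w : V) (S : Sys A V), S.Reg →
    ∃ l : List (SCQ A ℕ), (∀ φ ∈ l, φ.Reg) ∧
      ∀ u, (∃ σ : V → List A, (∀ x, σ x <:+: σ w) ∧ S.Sat σ ∧ σ w = u) ↔ ∃ φ ∈ l, u ∈ φ.lang 0

/-- The bounded factor theorem. -/
def BoundedStatement : Prop :=
  ∀ (A : Type) [Fintype A] (V : Type) [Finite V] (w : V) (S : Sys A V), S.Reg →
    ∃ K, ∀ σ, S.Sat σ → ∃ σ', S.Sat σ' ∧ σ' w = σ w ∧ ∀ x, BProd (σ w) K (σ' x)

/-- Part G: from the bounded factor theorem to unions of conjunctive queries. -/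
def SysToUnionStatement : Prop :=
  ∀ (A : Type) [Fintype A] (V : Type) [Finite V] (w : V) (S : Sys A V), S.Reg →
    ∃ l : List (SCQ A ℕ), (∀ φ ∈ l, φ.Reg) ∧
      ∀ u, (∃ σ : V → List A, S.Sat σ ∧ σ w = u) ↔ ∃ φ ∈ l, u ∈ φ.lang 0

/-- Part N: disjunctive prenex normal form. -/
def NormalFormStatement : Prop :=
  ∀ (A : Type) (ψ : EPC A), ∃ l : List ((k : ℕ) × Sys A (Fin (k + 1))),
    (∀ S ∈ l, ∀ r ∈ S.2.regs, ∃ P : RegularExpression A, P.matches' = r.2) ∧
    ψ.lang = {u | ∃ S ∈ l, ∃ σ : Fin (S.1 + 1) → List A, S.2.Sat σ ∧ σ 0 = u}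

/-- Part N': the easy inclusion. -/
def EasyInclusionStatement : Prop :=
  ∀ (A : Type) (φ : CQ A ℕ), ∃ ψ : EPC A, ψ.free ⊆ {0} ∧ ψ.lang = φ.lang

/-- Part S: shortening the runs of one periodic word. -/
def SRStatement : Prop :=
  ∀ (A Y M : Type) [Fintype Y] [Monoid M] [Finite M] (h : List A → M),
    h [] = 1 → (∀ u v, h (u ++ v) = h u * h v) → ∀ eqs : List (List Y × List Y),
    ∃ G : ℕ, ∀ (f : ℕ → A) (d lam : ℕ), 0 < d → (∀ i, f (i + d) = f i) → d ≤ lam →
      ∀ (σ : Y → List A) (Y1 : Set Y),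
        (∀ e ∈ eqs, e.1.flatMap σ = e.2.flatMap σ) →
        (∀ y ∈ Y1, ∃ s l, σ y = run f s l) →
        (∀ y, y ∉ Y1 → ∀ s l, run f s l <:+: σ y → l ≤ lam) →
        ∃ σ' : Y → List A, (∀ e ∈ eqs, e.1.flatMap σ' = e.2.flatMap σ') ∧
          (∀ y, y ∉ Y1 → σ' y = σ y) ∧
          (∀ y ∈ Y1, ∃ s l, σ' y = run f s l ∧ l ≤ G * lam) ∧
          ∀ y, h (σ' y) = h (σ y)

end Pool.Agent.Helper85.FC
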