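import Pool.Agent.Helper85.FC.Pat

/-! Transplanting the block structure. -/

namespace Pool.Agent.Helper85.FC

theorem exists_uniform {τ : Type} {S : Set τ} (hS : S.Finite) {Q : τ → ℕ → Prop}
    (hmono : ∀ t K K', K ≤ K' → Q t K → Q t K') (h : ∀ t ∈ S, ∃ K, Q t K) :
    ∃ K, ∀ t ∈ S, Q t K := by
  classical
  choose! f hf using h
  refine ⟨hS.toFinset.sup f, fun t ht => hmono t (f t) _ ?_ (hf t ht)⟩
  exact Finset.le_sup (f := f) (hS.mem_toFinset.2 ht)

theorem finite_lists {α : Type} {S : Set α} (hS : S.Finite) (n : ℕ) :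
    {l : List α | l.length ≤ n ∧ ∀ x ∈ l, x ∈ S}.Finite := by
  have hfin : Finite S := hS
  have := (List.finite_length_le S n).image (List.map Subtype.val)
  refine this.subset ?_
  rintro l ⟨h1, h2⟩
  refine ⟨l.attach.map fun x => ⟨x.1, h2 x.1 x.2⟩, by simpa using h1, ?_⟩
  simp

theorem h_flatten {A M : Type} [Monoid M] {h : List A → M} (h1 : h [] = 1)
    (hmul : ∀ u v, h (u ++ v) = h u * h v) (l : List (List A)) :
    h l.flatten = (l.map h).prod := by
  induction l with
  | nil => simpa using h1
  | cons a l ih => simp [hmul, ih]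

/-- A consistent assignment of words over names and monoid elements. -/
def Good {A Y M X : Type} [Monoid M] (h : List A → M)
    (t : List (List (Y ⊕ X) × List (Y ⊕ X)) × (X → M) × (Y → M)) (κ : Y → List (X ⊕ M)) : Prop :=
  (∀ p ∈ t.1, ev κ Sum.inl p.1 = ev κ Sum.inl p.2) ∧
  (∀ y, ((κ y).map (Sum.elim t.2.1 id)).prod = t.2.2 y) ∧
  ∀ y x, Sum.inr x ∈ κ y → x ∈ Set.range h

theorem length_filterMap_inr {X Y : Type} (P : List (Y ⊕ X)) :
    (P.filterMap Sum.getRight?).length ≤ P.length := List.length_filterMap_le _ _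

theorem mem_toksOf {X Y : Type} {P : List (Y ⊕ X)} {x : X} (h : Sum.inr x ∈ P) :
    x ∈ P.filterMap Sum.getRight? := by
  rw [List.mem_filterMap]
  exact ⟨_, h, rfl⟩

theorem of_mem_toksOf {X Y : Type} {P : List (Y ⊕ X)} {x : X}
    (h : x ∈ P.filterMap Sum.getRight?) : Sum.inr x ∈ P := by
  rw [List.mem_filterMap] at h
  obtain ⟨a, ha, hx⟩ := h
  cases a with
  | inl y => simp at hx
  | inr x' =>
    simp at hx
    rwa [← hx]

theorem block1 {A Y M : Type} [Finite Y] [Monoid M] [Finite M] (h : List A → M)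
    (h1 : h [] = 1) (hmul : ∀ u v, h (u ++ v) = h u * h v)
    (eqs : List (List Y × List Y)) (N : ℕ) :
    ∃ K, ∀ (F D : Set (List A)) (σ : Y → List A), Anti D → (∀ u v, cr D u v ≤ N) →
      FClosed F → (∀ a, [a] ∈ F) → (∀ y, (toks D (σ y)).2 = [] → σ y ∈ F) →
      (∀ y, (toks D (σ y)).2 ≠ [] → (toks D (σ y)).1 ∈ F) →
      (∀ y, (toks D (σ y)).2 ≠ [] → lastT D σ y ∈ Pw F 2) →
      (∀ e ∈ eqs, e.1.flatMap σ = e.2.flatMap σ) →
      ∃ σ' : Y → List A, (∀ e ∈ eqs, e.1.flatMap σ' = e.2.flatMap σ') ∧
        (∀ y, (toks D (σ y)).2 = [] → σ' y = σ y) ∧ (∀ y, h (σ' y) = h (σ y)) ∧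
        ∀ y, σ' y ∈ Pw F K := by
  classical
  have : Fintype Y := Fintype.ofFinite Y
  obtain ⟨ml, hml⟩ : ∃ ml, ∀ e ∈ eqs, e.1.length ≤ ml ∧ e.2.length ≤ ml := by
    refine ⟨(eqs.map fun e => e.1.length + e.2.length).sum, fun e he => ?_⟩
    have := List.single_le_sum (l := eqs.map fun e => e.1.length + e.2.length) (by simp)
      (e.1.length + e.2.length) (List.mem_map.2 ⟨e, he, rfl⟩)
    omega
  set Bd := ml * (N + 2) with hBd
  set n := eqs.length with hn
  set c := n * (2 * Bd) + 1 with hc
  -- the finite set of types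
  set 𝒯 : Set (List (List (Y ⊕ Fin c) × List (Y ⊕ Fin c)) × (Fin c → M) × (Y → M)) :=
    {t | t.1.length ≤ n ∧ ∀ p ∈ t.1, p.1.length ≤ Bd ∧ p.2.length ≤ Bd} with h𝒯
  have hfin : 𝒯.Finite := by
    have hS : {p : List (Y ⊕ Fin c) × List (Y ⊕ Fin c) |
        p.1.length ≤ Bd ∧ p.2.length ≤ Bd}.Finite :=
      (List.finite_length_le (Y ⊕ Fin c) Bd).prod (List.finite_length_le (Y ⊕ Fin c) Bd)
    have := (finite_lists hS n).prod (Set.finite_univ (α := (Fin c → M) × (Y → M)))
    refine this.subset ?_
    rintro t ⟨h1, h2⟩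
    exact ⟨⟨h1, h2⟩, trivial⟩
  obtain ⟨K0, hK0⟩ := exists_uniform hfin
    (Q := fun t K => (∃ κ, Good h t κ) → ∃ κ, Good h t κ ∧ ∀ y, (κ y).length ≤ K)
    (fun t K K' hKK hQ hg => by
      obtain ⟨κ, g1, g2⟩ := hQ hg
      exact ⟨κ, g1, fun y => (g2 y).trans hKK⟩)
    (fun t _ => by
      by_cases hg : ∃ κ, Good h t κ
      · obtain ⟨κ, g⟩ := hg
        refine ⟨Finset.univ.sup fun y => (κ y).length, fun _ => ⟨κ, g, fun y => ?_⟩⟩
        exact Finset.le_sup (f := fun y => (κ y).length) (Finset.mem_univ y)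
      · exact ⟨0, fun h' => absurd h' hg⟩)
  -- representatives of the monoid elements
  have hrep : ∀ m : M, ∃ r : List A, m ∈ Set.range h → h r = m := by
    intro m
    by_cases hm : m ∈ Set.range h
    · obtain ⟨r, hr⟩ := hm
      exact ⟨r, fun _ => hr⟩
    · exact ⟨[], fun h' => absurd h' hm⟩
  choose rep hrep using hrep
  obtain ⟨R, hR⟩ : ∃ R, ∀ m, (rep m).length ≤ R := by
    have := Fintype.ofFinite M
    exact ⟨Finset.univ.sup fun m => (rep m).length, fun m =>
      Finset.le_sup (f := fun m => (rep m).length) (Finset.mem_univ m)⟩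
  refine ⟨1 + K0 * (ml + 2 + R) + 2, ?_⟩
  intro F D σ hD hcr hF hletter hun hA hB heqs
  choose Pf p1 p2 p3 p4 p5 using pat hD hcr hF σ hun hA hB
  -- list of all constant tokens
  set T : List (List A) := eqs.flatMap fun e =>
    (Pf e.1).filterMap Sum.getRight? ++ (Pf e.2).filterMap Sum.getRight? with hT
  have hPlen : ∀ e ∈ eqs, (Pf e.1).length ≤ Bd ∧ (Pf e.2).length ≤ Bd := by
    intro e he
    exact ⟨(p2 e.1).trans (Nat.mul_le_mul_right _ (hml e he).1),
      (p2 e.2).trans (Nat.mul_le_mul_right _ (hml e he).2)⟩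
  have hTlen : T.length < c := by
    rw [hT, List.length_flatMap, hc]
    have : (eqs.map fun e => ((Pf e.1).filterMap Sum.getRight? ++
        (Pf e.2).filterMap Sum.getRight?).length).sum ≤
        (eqs.map fun e => ((Pf e.1).filterMap Sum.getRight? ++
        (Pf e.2).filterMap Sum.getRight?).length).length • (2 * Bd) := by
      apply List.sum_le_card_nsmul
      intro x hx
      obtain ⟨e, he, rfl⟩ := List.mem_map.1 hx
      have h3 := length_filterMap_inr (Pf e.1)
      have h4 := length_filterMap_inr (Pf e.2)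
      have := hPlen e he
      rw [List.length_append]
      omega
    simp only [List.length_map, smul_eq_mul] at this
    rw [← hn] at this
    omega
  have hTmem1 : ∀ e ∈ eqs, ∀ t, Sum.inr t ∈ Pf e.1 → t ∈ T := by
    intro e he t ht
    rw [hT, List.mem_flatMap]
    exact ⟨e, he, List.mem_append_left _ (mem_toksOf ht)⟩
  have hTmem2 : ∀ e ∈ eqs, ∀ t, Sum.inr t ∈ Pf e.2 → t ∈ T := by
    intro e he t ht
    rw [hT, List.mem_flatMap]
    exact ⟨e, he, List.mem_append_right _ (mem_toksOf ht)⟩
  have hTpw : ∀ t ∈ T, t ∈ Pw F (ml + 2) := by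
    intro t ht
    rw [hT, List.mem_flatMap] at ht
    obtain ⟨e, he, ht⟩ := ht
    rcases List.mem_append.1 ht with ht | ht
    · exact pw_mono (by have := (hml e he).1; omega) (p3 e.1 t (of_mem_toksOf ht))
    · exact pw_mono (by have := (hml e he).2; omega) (p3 e.2 t (of_mem_toksOf ht))
  -- names
  set nm : Fin c → List A := fun i => T.getD i [] with hnm
  have hcpos : 0 < c := by omega
  set code : List A → Fin c := fun t => if ht : t ∈ T then ⟨T.idxOf t, by
    have := List.idxOf_lt_length_iff.2 ht
    omega⟩ else ⟨0, hcpos⟩ with hcode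
  have hnc : ∀ t ∈ T, nm (code t) = t := by
    intro t ht
    simp only [hnm, hcode, ht, dif_pos]
    have := List.idxOf_lt_length_iff.2 ht
    rw [List.getD_eq_getElem _ _ this]
    exact List.getElem_idxOf this
  have hnmpw : ∀ i, nm i ∈ Pw F (ml + 2) := by
    intro i
    by_cases hi : (i : ℕ) < T.length
    · simp only [hnm]
      rw [List.getD_eq_getElem _ _ hi]
      exact hTpw _ (List.getElem_mem hi)
    · simp only [hnm]
      rw [List.getD_eq_default _ _ (by omega)]
      exact pw_nil _
  -- abstraction of tokens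
  set π : List A → Fin c ⊕ M := fun t => if t ∈ T then Sum.inl (code t) else Sum.inr (h t) with hπ
  set q : List (Y ⊕ List A) → List (Y ⊕ Fin c) := fun P => P.map (Sum.map id code) with hq
  set μ : Fin c → M := fun i => h (nm i) with hμ
  set t : List (List (Y ⊕ Fin c) × List (Y ⊕ Fin c)) × (Fin c → M) × (Y → M) :=
    (eqs.map fun e => (q (Pf e.1), q (Pf e.2)), μ, fun y => h (core D σ y).flatten) with ht
  have htT : t ∈ 𝒯 := by
    refine ⟨by simp [ht, hn], ?_⟩
    intro p hp
    simp only [ht, List.mem_map] at hp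
    obtain ⟨e, he, rfl⟩ := hp
    simpa [hq] using hPlen e he
  have hevq : ∀ (P : List (Y ⊕ List A)), (∀ t, Sum.inr t ∈ P → t ∈ T) →
      ev (fun y => (core D σ y).map π) Sum.inl (q P) = (ev (core D σ) id P).map π := by
    intro P hP
    rw [ev_map, hq, ev_code]
    apply ev_congr
    intro x hx
    simp [hπ, hP x hx]
  have hgood : Good h t (fun y => (core D σ y).map π) := by
    refine ⟨?_, ?_, ?_⟩
    · intro p hp
      simp only [ht, List.mem_map] at hp
      obtain ⟨e, he, rfl⟩ := hp
      simp only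
      rw [hevq _ (hTmem1 e he), hevq _ (hTmem2 e he), ← p1, ← p1, heqs e he]
    · intro y
      simp only [ht]
      rw [h_flatten h1 hmul, List.map_map]
      congr 1
      apply List.map_congr_left
      intro x _
      by_cases hx : x ∈ T
      · simp [hπ, hx, hμ, hnc x hx]
      · simp [hπ, hx]
    · intro y x hx
      simp only [List.mem_map] at hx
      obtain ⟨w, _, hw⟩ := hx
      by_cases hwT : w ∈ T
      · simp [hπ, hwT] at hw
      · simp only [hπ, hwT, if_false, Sum.inr.injEq] at hw
        exact ⟨w, hw⟩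
  obtain ⟨κ, ⟨g1, g2, g3⟩, g4⟩ := hK0 t htT ⟨_, hgood⟩
  set e' : Fin c ⊕ M → List A := Sum.elim nm rep with he'
  set c' : Y → List (List A) := fun y => (κ y).map e' with hc'
  have hevc' : ∀ (P : List (Y ⊕ List A)), (∀ t, Sum.inr t ∈ P → t ∈ T) →
      ev c' id P = (ev κ Sum.inl (q P)).map e' := by
    intro P hP
    rw [ev_map, hq, ev_code]
    apply ev_congr
    intro x hx
    simp [he', hnc x (hP x hx)]
  refine ⟨newσ D σ c', ?_, ?_, ?_, ?_⟩
  · intro e he
    rw [p5 e.1 c', p5 e.2 c', heqs e he, hevc' _ (hTmem1 e he), hevc' _ (hTmem2 e he)]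
    have := g1 (q (Pf e.1), q (Pf e.2)) (by
      simp only [ht, List.mem_map]
      exact ⟨e, he, rfl⟩)
    simp only at this
    rw [this]
  · intro y hy
    simp [newσ, hy]
  · intro y
    by_cases hy : (toks D (σ y)).2 = []
    · simp [newσ, hy]
    · have hσ : σ y = (toks D (σ y)).1 ++ (core D σ y).flatten ++ lastT D σ y := by
        conv_lhs => rw [← toks_flatten (D := D) (σ y), core_last hy]
        simp
      have hh : h (c' y).flatten = h (core D σ y).flatten := by
        rw [h_flatten h1 hmul]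
        have := g2 y
        simp only [ht] at this
        rw [← this, hc', List.map_map]
        congr 1
        apply List.map_congr_left
        intro x hx
        cases x with
        | inl i => simp [he', hμ]
        | inr m => simp [he', hrep m (g3 y m hx)]
      have hnew : newσ D σ c' y = (toks D (σ y)).1 ++ (c' y).flatten ++ lastT D σ y := by
        simp [newσ, hy]
      rw [hnew, hmul, hmul, hh, ← hmul, ← hmul, ← hσ]
  · intro y
    by_cases hy : (toks D (σ y)).2 = []
    · simp only [newσ, hy, if_true]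
      exact pw_mono (by omega) (pw_one (hun y hy))
    · simp only [newσ, hy, if_false]
      have hc'pw : (c' y).flatten ∈ Pw F (K0 * (ml + 2 + R)) := by
        have : (c' y).flatten ∈ Pw F ((c' y).length * (ml + 2 + R)) := by
          apply pw_flatten
          intro x hx
          simp only [hc', List.mem_map] at hx
          obtain ⟨z, _, rfl⟩ := hx
          cases z with
          | inl i =>
            simp only [he', Sum.elim_inl]
            exact pw_mono (by omega) (hnmpw i)
          | inr m =>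
            simp only [he', Sum.elim_inr]
            refine pw_mono (K := R) (by omega) ⟨(rep m).map fun a => [a], ?_, ?_, ?_⟩
            · simpa using hR m
            · intro x hx
              simp only [List.mem_map] at hx
              obtain ⟨a, _, rfl⟩ := hx
              exact hletter a
            · induction rep m with
              | nil => simp
              | cons a l ih => simp [← ih]
        refine pw_mono ?_ this
        apply Nat.mul_le_mul_right
        simpa [hc'] using g4 y
      exact pw_append (pw_append (pw_one (hA y hy)) hc'pw) (hB y hy)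

end Pool.Agent.Helper85.FC
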