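import Pool.Agent.Helper85.FC.Block

/-! The block theorem for factor-closed sets. -/

namespace Pool.Agent.Helper85.FC

theorem block2 {A Y M : Type} [Finite Y] [Monoid M] [Finite M] (h : List A → M)
    (h1 : h [] = 1) (hmul : ∀ u v, h (u ++ v) = h u * h v)
    (eqs : List (List Y × List Y)) :
    ∃ K, ∀ (F : Set (List A)) (σ : Y → List A), FClosed F → [] ∈ F → (∀ a, [a] ∈ F) →
      (∀ y, σ y ∉ F →
        (∃ p, p <+: σ y ∧ p ∉ F ∧ LO p ∧ ∀ q, q <+: p → q ≠ p → q ∈ F) ∧
        (∃ p, p <:+ σ y ∧ p ∉ F ∧ LO p ∧ ∀ q, q <:+ p → q ≠ p → q ∈ F)) →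
      (∀ e ∈ eqs, e.1.flatMap σ = e.2.flatMap σ) →
      ∃ σ' : Y → List A, (∀ e ∈ eqs, e.1.flatMap σ' = e.2.flatMap σ') ∧
        (∀ y, σ y ∈ F → σ' y = σ y) ∧ (∀ y, h (σ' y) = h (σ y)) ∧
        ∀ y, σ' y ∈ Pw F K := by
  classical
  have : Fintype Y := Fintype.ofFinite Y
  obtain ⟨K, hK⟩ := block1 h h1 hmul eqs (5 * (2 * Fintype.card Y))
  refine ⟨K, ?_⟩
  intro F σ hF hnil hletter hyp heqs
  have hp1 : ∀ y, ∃ p, σ y ∉ F → (p <+: σ y ∧ p ∉ F ∧ LO p ∧ ∀ q, q <+: p → q ≠ p → q ∈ F) := by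
    intro y
    by_cases hy : σ y ∈ F
    · exact ⟨[], fun h' => absurd hy h'⟩
    · obtain ⟨p, hp⟩ := (hyp y hy).1
      exact ⟨p, fun _ => hp⟩
  have hp2 : ∀ y, ∃ p, σ y ∉ F → (p <:+ σ y ∧ p ∉ F ∧ LO p ∧ ∀ q, q <:+ p → q ≠ p → q ∈ F) := by
    intro y
    by_cases hy : σ y ∈ F
    · exact ⟨[], fun h' => absurd hy h'⟩
    · obtain ⟨p, hp⟩ := (hyp y hy).2
      exact ⟨p, fun _ => hp⟩
  choose P hP using hp1
  choose S hS using hp2
  set Y0 : Finset Y := Finset.univ.filter fun y => σ y ∉ F with hY0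
  set D0 : Finset (List A) := Y0.image P ∪ Y0.image S with hD0
  have hD0card : D0.card ≤ 2 * Fintype.card Y := by
    have h2 : D0.card ≤ _ := Finset.card_union_le (Y0.image P) (Y0.image S)
    have h3 := Finset.card_image_le (s := Y0) (f := P)
    have h4 := Finset.card_image_le (s := Y0) (f := S)
    have h5 : Y0.card ≤ Fintype.card Y := Finset.card_le_univ _
    omega
  have hD0F : ∀ d ∈ D0, d ∉ F ∧ LO d := by
    intro d hd
    rcases Finset.mem_union.1 hd with hd | hd
    · obtain ⟨y, hy, rfl⟩ := Finset.mem_image.1 hd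
      have := hP y (by simpa [hY0] using hy)
      exact ⟨this.2.1, this.2.2.1⟩
    · obtain ⟨y, hy, rfl⟩ := Finset.mem_image.1 hd
      have := hS y (by simpa [hY0] using hy)
      exact ⟨this.2.1, this.2.2.1⟩
  set D : Finset (List A) := D0.filter fun d => ∀ d' ∈ D0, d' <:+: d → d' = d with hD
  have hmin : ∀ n, ∀ d ∈ D0, d.length ≤ n → ∃ d' ∈ D, d' <:+: d := by
    intro n
    induction n with
    | zero =>
      intro d hd hl
      have : d = [] := List.length_eq_zero_iff.1 (by omega)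
      exact absurd (this ▸ hnil) (hD0F d hd).1
    | succ n ih =>
      intro d hd hl
      by_cases hmin : ∀ d' ∈ D0, d' <:+: d → d' = d
      · exact ⟨d, Finset.mem_filter.2 ⟨hd, hmin⟩, List.infix_rfl⟩
      · push Not at hmin
        obtain ⟨d', hd', hi, hne⟩ := hmin
        have hlt : d'.length < d.length := by
          rcases lt_or_eq_of_le hi.length_le with h' | h'
          · exact h'
          · exact absurd (hi.eq_of_length h') hne
        obtain ⟨d'', h3, h4⟩ := ih d' hd' (by omega)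
        exact ⟨d'', h3, h4.trans hi⟩
  have hanti : Anti (D : Set (List A)) := by
    intro d hd d' hd' hi
    have h2 := (Finset.mem_filter.1 (Finset.mem_coe.1 hd')).2
    exact h2 d (Finset.mem_filter.1 (Finset.mem_coe.1 hd)).1 hi
  have hDF : ∀ d ∈ (D : Set (List A)), d ∉ F ∧ LO d := fun d hd =>
    hD0F d (Finset.mem_filter.1 (Finset.mem_coe.1 hd)).1
  have hDne : ∀ d ∈ (D : Set (List A)), d ≠ [] := fun d hd hd0 => (hDF d hd).1 (hd0 ▸ hnil)
  have hcr : ∀ u v, cr (D : Set (List A)) u v ≤ 5 * (2 * Fintype.card Y) := by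
    intro u v
    refine (cr_le D (fun d hd => (hDF d hd).2) u v).trans ?_
    apply Nat.mul_le_mul_left
    exact (Finset.card_filter_le _ _).trans hD0card
  have hunF : ∀ y, σ y ∈ F → (toks (D : Set (List A)) (σ y)).2 = [] := by
    intro y hy
    by_contra hne
    obtain ⟨s, hs, d, hd, hds⟩ := toks_mk hne
    exact (hDF d hd).1 (hF _ _ (hds.isInfix.trans hs.isInfix) hy)
  -- occurrence of a delimiter in the prefix
  have hpre : ∀ y, σ y ∉ F → ∃ x v, σ y = x ++ v ∧ mk (D : Set (List A)) v ∧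
      x <+: P y ∧ x.length < (P y).length := by
    intro y hy
    have hPy := hP y hy
    have hmem : P y ∈ D0 := Finset.mem_union_left _ (Finset.mem_image_of_mem _ (by simp [hY0, hy]))
    obtain ⟨d, hd, x, z, hxz⟩ := hmin _ (P y) hmem le_rfl
    obtain ⟨r, hr⟩ := hPy.1
    refine ⟨x, d ++ z ++ r, ?_, ⟨d, hd, ?_⟩, ?_, ?_⟩
    · rw [← hr, ← hxz]
      simp
    · rw [List.append_assoc]
      exact List.prefix_append _ _
    · rw [← hxz, List.append_assoc]
      exact List.prefix_append _ _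
    · have := List.length_pos_of_ne_nil (hDne d hd)
      rw [← hxz]
      simp
      omega
  have hsuf : ∀ y, σ y ∉ F → ∃ x v, σ y = x ++ v ∧ mk (D : Set (List A)) v ∧
      v <:+ S y := by
    intro y hy
    have hSy := hS y hy
    have hmem : S y ∈ D0 := Finset.mem_union_right _ (Finset.mem_image_of_mem _ (by simp [hY0, hy]))
    obtain ⟨d, hd, x, z, hxz⟩ := hmin _ (S y) hmem le_rfl
    obtain ⟨r, hr⟩ := hSy.1
    refine ⟨r ++ x, d ++ z, ?_, ⟨d, hd, List.prefix_append _ _⟩, ?_⟩
    · rw [← hr, ← hxz]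
      simp
    · rw [← hxz, List.append_assoc]
      exact List.suffix_append _ _
  have hun : ∀ y, (toks (D : Set (List A)) (σ y)).2 = [] → σ y ∈ F := by
    intro y hy
    by_contra hyF
    obtain ⟨x, v, hxv, hm, -, -⟩ := hpre y hyF
    rw [hxv] at hy
    exact toks_ne_of_mk x v hm hDne hy
  have hA : ∀ y, (toks (D : Set (List A)) (σ y)).2 ≠ [] →
      (toks (D : Set (List A)) (σ y)).1 ∈ F := by
    intro y hy
    have hyF : σ y ∉ F := fun h' => hy (hunF y h')
    obtain ⟨x, v, hxv, hm, hx, hlt⟩ := hpre y hyF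
    have h3 := toks_fst_le (D := (D : Set (List A))) x v hm hDne
    rw [← hxv] at h3
    refine (hP y hyF).2.2.2 _ (h3.trans hx) ?_
    intro heq
    have := h3.length_le
    rw [heq] at this
    omega
  have hB : ∀ y, (toks (D : Set (List A)) (σ y)).2 ≠ [] →
      lastT (D : Set (List A)) σ y ∈ Pw F 2 := by
    intro y hy
    have hyF : σ y ∉ F := fun h' => hy (hunF y h')
    obtain ⟨x, v, hxv, hm, hv⟩ := hsuf y hyF
    have h3 : lastT (D : Set (List A)) σ y <:+ v := by
      have h4 := core_last hy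
      rw [hxv] at h4
      exact toks_last x v hm hDne h4
    have hSy := hS y hyF
    have h5 : S y ∈ Pw F 2 := by
      cases hs : S y with
      | nil => exact absurd (hs ▸ hnil) hSy.2.1
      | cons a s =>
        have : s ∈ F := by
          refine hSy.2.2.2 s ?_ ?_
          · rw [hs]
            exact List.suffix_cons a s
          · rw [hs]
            intro h'
            have := congrArg List.length h'
            simp at this
        exact pw_append (pw_one (hletter a)) (pw_one this)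
    exact pw_infix hF (h3.trans hv).isInfix h5
  obtain ⟨σ', s1, s2, s3, s4⟩ := hK F D σ hanti hcr hF hletter hun hA hB heqs
  exact ⟨σ', s1, fun y hy => s2 y (hunF y hy), s3, s4⟩

end Pool.Agent.Helper85.FC
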