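import Pool.Agent.Helper85.FC.Stage

/-! The bounded factor theorem. -/

namespace Pool.Agent.Helper85.FC

theorem common_monoid {A : Type} (Ls : List (Language A)) (hL : ∀ L ∈ Ls, L.IsRegular) :
    ∃ (M : Type) (_ : Monoid M) (_ : Finite M) (h : List A → M), h [] = 1 ∧
      (∀ u v, h (u ++ v) = h u * h v) ∧ ∀ L ∈ Ls, ∀ u v, h u = h v → (u ∈ L ↔ v ∈ L) := by
  induction Ls with
  | nil => exact ⟨PUnit, inferInstance, inferInstance, fun _ => 1, rfl, fun _ _ => rfl, by simp⟩
  | cons L Ls ih =>
    obtain ⟨M, i1, i2, h, h1, h2, h3⟩ := ih fun L' hL' => hL L' (by simp [hL'])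
    obtain ⟨Q, i3, D, hD⟩ := hL L (by simp)
    refine ⟨(Function.End Q)ᵐᵒᵖ × M, inferInstance, ?_, fun u =>
      (MulOpposite.op (show Function.End Q from fun q => D.evalFrom q u), h u), ?_, ?_, ?_⟩
    · have : Finite (Function.End Q) := inferInstanceAs (Finite (Q → Q))
      have : Finite (Function.End Q)ᵐᵒᵖ := Finite.of_equiv _ MulOpposite.opEquiv
      infer_instance
    · simp only [h1]
      rfl
    · intro u v
      simp only [h2, Prod.mk_mul_mk, ← MulOpposite.op_mul]
      congr 2
      funext q
      exact D.evalFrom_of_append q u v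
    · intro L' hL' u v huv
      simp only [Prod.mk.injEq] at huv
      rcases List.mem_cons.1 hL' with rfl | hL'
      · have h4 : D.evalFrom D.start u = D.evalFrom D.start v :=
          congrFun (MulOpposite.op_injective huv.1) D.start
        rw [← hD, DFA.mem_accepts, DFA.mem_accepts]
        unfold DFA.eval
        rw [h4]
      · exact h3 L' hL' u v huv.2

theorem exists_min_prefix {A : Type} (F : Set (List A)) :
    ∀ n, ∀ w : List A, w.length ≤ n → w ∉ F →
      ∃ p, p <+: w ∧ p ∉ F ∧ ∀ q, q <+: p → q ≠ p → q ∈ F := by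
  intro n
  induction n with
  | zero =>
    intro w hw hF
    refine ⟨w, List.prefix_rfl, hF, fun q hq hne => ?_⟩
    have : w = [] := List.length_eq_zero_iff.1 (by omega)
    subst this
    exact absurd (List.prefix_nil.1 hq) hne
  | succ n ih =>
    intro w hw hF
    by_cases hall : ∀ q, q <+: w → q ≠ w → q ∈ F
    · exact ⟨w, List.prefix_rfl, hF, hall⟩
    · push Not at hall
      obtain ⟨q, hq, hne, hqF⟩ := hall
      have hlt : q.length < w.length := by
        rcases lt_or_eq_of_le hq.length_le with h' | h'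
        · exact h'
        · exact absurd (hq.eq_of_length h') hne
      obtain ⟨p, hp, hp2⟩ := ih q (by omega) hqF
      exact ⟨p, hp.trans hq, hp2⟩

theorem exists_min_suffix {A : Type} (F : Set (List A)) :
    ∀ n, ∀ w : List A, w.length ≤ n → w ∉ F →
      ∃ p, p <:+ w ∧ p ∉ F ∧ ∀ q, q <:+ p → q ≠ p → q ∈ F := by
  intro n
  induction n with
  | zero =>
    intro w hw hF
    refine ⟨w, List.suffix_rfl, hF, fun q hq hne => ?_⟩
    have : w = [] := List.length_eq_zero_iff.1 (by omega)
    subst this
    exact absurd (List.suffix_nil.1 hq) hne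
  | succ n ih =>
    intro w hw hF
    by_cases hall : ∀ q, q <:+ w → q ≠ w → q ∈ F
    · exact ⟨w, List.suffix_rfl, hF, hall⟩
    · push Not at hall
      obtain ⟨q, hq, hne, hqF⟩ := hall
      have hlt : q.length < w.length := by
        rcases lt_or_eq_of_le hq.length_le with h' | h'
        · exact h'
        · exact absurd (hq.eq_of_length h') hne
      obtain ⟨p, hp, hp2⟩ := ih q (by omega) hqF
      exact ⟨p, hp.trans hq, hp2⟩

theorem flatMap_getD {α : Type} (l : List (List α)) : ∀ K, l.length ≤ K →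
    (List.finRange K).flatMap (fun j : Fin K => l.getD (j : ℕ) []) = l.flatten := by
  induction l with
  | nil =>
    intro K _
    simp
  | cons a l ih =>
    intro K hK
    simp only [List.length_cons] at hK
    obtain ⟨K', rfl⟩ : ∃ K', K = K' + 1 := ⟨K - 1, by omega⟩
    rw [List.finRange_succ, List.flatMap_cons, List.flatMap_map]
    simp only [Fin.val_zero, List.getD_cons_zero, Fin.val_succ, List.getD_cons_succ,
      List.flatten_cons]
    rw [ih K' (by omega)]

/-- factors of `u` and words of length at most one -/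
def F0 {A : Type} (u : List A) : Set (List A) := {v | v <:+: u ∨ v.length ≤ 1}

theorem F0_closed {A : Type} (u : List A) : FClosed (F0 u) := by
  rintro v v' hv (h | h)
  · exact Or.inl (hv.trans h)
  · exact Or.inr (hv.length_le.trans h)

theorem bounded (hsr : SRStatement) : BoundedStatement := by
  classical
  intro A _ V _ w S hS
  obtain ⟨M, i1, i2, h, h1, hmul, hreg⟩ := common_monoid (S.regs.map Prod.snd) (by
    intro L hL
    obtain ⟨r, hr, rfl⟩ := List.mem_map.1 hL
    exact hS r hr)
  obtain ⟨K1, hK1⟩ := block2 (Y := A ⊕ V) h h1 hmul S.eqs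
  set K' := K1 + 1 with hK'
  set cut : List (A ⊕ V) → List ((A ⊕ V) × Fin K') := fun α =>
    α.flatMap fun y => (List.finRange K').map fun j => (y, j) with hcut
  obtain ⟨G, hG⟩ := stages hsr (Y := (A ⊕ V) × Fin K') h h1 hmul
    (S.eqs.map fun e => (cut e.1, cut e.2))
  refine ⟨K' * (2 * G + 1), ?_⟩
  intro σ hσ
  set u := σ w with hu
  set σ0 : A ⊕ V → List A := Sum.elim (fun a => [a]) σ with hσ0
  have hclosed := F0_closed u
  have hnil : ([] : List A) ∈ F0 u := Or.inr (by simp)
  have hlet : ∀ a : A, [a] ∈ F0 u := fun a => Or.inr (by simp)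
  obtain ⟨σ1, b1, b2, b3, b4⟩ := hK1 (Fplus (F0 u)) σ0 (fplus_closed hclosed) (Or.inl hnil)
    (fun a => Or.inl (hlet a)) (by
      intro y hy
      obtain ⟨p, p1, p2, p3⟩ := exists_min_prefix _ _ (σ0 y) le_rfl hy
      obtain ⟨q, q1, q2, q3⟩ := exists_min_suffix _ _ (σ0 y) le_rfl hy
      exact ⟨⟨p, p1, p2, lo_prefix hclosed hnil p2 p3, p3⟩,
        ⟨q, q1, q2, lo_suffix hclosed hnil q2 q3, q3⟩⟩)
    (fun e he => hσ.1 e he)
  -- cut every value into pieces
  have hpieces : ∀ y, ∃ l : List (List A), l.length ≤ K' ∧ (∀ t ∈ l, t ∈ Fplus (F0 u)) ∧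
      σ1 y = l.flatten ∧ (σ0 y ∈ F0 u → l = [σ0 y]) := by
    intro y
    by_cases hy : σ0 y ∈ F0 u
    · refine ⟨[σ0 y], by simp [hK'], ?_, ?_, fun _ => rfl⟩
      · intro t ht
        rw [List.mem_singleton.1 ht]
        exact Or.inl hy
      · rw [b2 y (Or.inl hy)]
        simp
    · obtain ⟨l, l1, l2, l3⟩ := b4 y
      exact ⟨l, by omega, l2, l3, fun h' => absurd h' hy⟩
  choose L L1 L2 L3 L4 using hpieces
  set τ : (A ⊕ V) × Fin K' → List A := fun p => (L p.1).getD p.2 [] with hτ
  have hjoin : ∀ y, (List.finRange K').flatMap (fun j => τ (y, j)) = σ1 y := by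
    intro y
    rw [L3 y]
    exact flatMap_getD (L y) K' (L1 y)
  have hcutflat : ∀ (ρ : (A ⊕ V) × Fin K' → List A) (α : List (A ⊕ V)),
      (cut α).flatMap ρ = α.flatMap fun y => (List.finRange K').flatMap fun j => ρ (y, j) := by
    intro ρ α
    simp only [hcut, List.flatMap_assoc, List.flatMap_map]
  obtain ⟨τ', t1, t2, t3, t4⟩ := hG (F0 u) hclosed (max u.length 1) (by
      rintro v (hv | hv)
      · exact hv.length_le.trans (le_max_left _ _)
      · exact hv.trans (le_max_right _ _)) τ (by
      intro p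
      simp only [hτ]
      by_cases hp : (p.2 : ℕ) < (L p.1).length
      · rw [List.getD_eq_getElem _ _ hp]
        exact L2 _ _ (List.getElem_mem hp)
      · rw [List.getD_eq_default _ _ (by omega)]
        exact Or.inl hnil) (by
      intro e he
      obtain ⟨e', he', rfl⟩ := List.mem_map.1 he
      simp only [hcutflat, hjoin]
      exact b1 e' he')
  set σ2 : A ⊕ V → List A := fun y => (List.finRange K').flatMap fun j => τ' (y, j) with hσ2
  have hfix : ∀ y, σ0 y ∈ F0 u → σ2 y = σ0 y := by
    intro y hy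
    have h5 : ∀ j, τ (y, j) ∈ F0 u := by
      intro j
      simp only [hτ, L4 y hy]
      by_cases hj : (j : ℕ) < [σ0 y].length
      · rw [List.getD_eq_getElem _ _ hj]
        have : [σ0 y][(j : ℕ)] = σ0 y := by
          have : (j : ℕ) = 0 := by simpa using hj
          simp [this]
        rw [this]
        exact hy
      · rw [List.getD_eq_default _ _ (by omega)]
        exact hnil
    have h6 : σ2 y = σ1 y := by
      rw [← hjoin y]
      simp only [hσ2]
      congr 1
      funext j
      exact t2 _ (h5 j)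
    rw [h6, b2 y (Or.inl hy)]
  have hsub : ∀ α : Pattern A V, subst (fun x => σ2 (Sum.inr x)) α = α.flatMap σ2 := by
    intro α
    unfold subst
    congr 1
    funext y
    cases y with
    | inl a =>
      simp only [Sum.elim_inl]
      exact (hfix (Sum.inl a) (hlet a)).symm
    | inr x => rfl
  have hh : ∀ y, h (σ2 y) = h (σ0 y) := by
    intro y
    rw [← b3 y, ← hjoin y]
    simp only [hσ2, List.flatMap_def]
    rw [h_flatten h1 hmul, h_flatten h1 hmul, List.map_map, List.map_map]
    congr 1
    apply List.map_congr_left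
    intro j _
    exact t3 _
  refine ⟨fun x => σ2 (Sum.inr x), ⟨?_, ?_⟩, ?_, ?_⟩
  · intro e he
    rw [hsub, hsub]
    have := t1 (cut e.1, cut e.2) (List.mem_map.2 ⟨e, he, rfl⟩)
    simp only [hcutflat] at this
    exact this
  · intro r hr
    have h7 := hreg r.2 (List.mem_map.2 ⟨r, hr, rfl⟩) _ _ (hh (Sum.inr r.1))
    exact h7.2 (hσ.2 r hr)
  · exact hfix (Sum.inr w) (Or.inl (by simp [hσ0, hu]))
  · intro x
    have : (List.finRange K').flatMap (fun j => τ' (Sum.inr x, j)) ∈
        Pw (F0 u) (((List.finRange K').map fun j => τ' (Sum.inr x, j)).length * (2 * G + 1)) := by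
      rw [List.flatMap_def]
      apply pw_flatten
      intro t ht
      obtain ⟨j, _, rfl⟩ := List.mem_map.1 ht
      exact t4 _
    simp only [List.length_map, List.length_finRange] at this
    exact this

end Pool.Agent.Helper85.FC
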