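import Pool.Agent.Helper85.FC.Toks

/-! Few occurrences of a word without short periods cross a given position. -/

namespace Pool.Agent.Helper85.FC

variable {A : Type}

/-- `d` is a period of `u` -/
def HasPer (u : List A) (d : ℕ) : Prop := ∀ i, i + d < u.length → u[i]? = u[i + d]?

/-- low overlap: no short period -/
def LO (u : List A) : Prop := ∀ d, 0 < d → 5 * d ≤ u.length → ¬ HasPer u d

theorem prefix_getElem? {d w : List A} (h : d <+: w) {k : ℕ} (hk : k < d.length) :
    d[k]? = w[k]? := by
  obtain ⟨t, rfl⟩ := h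
  rw [List.getElem?_append_left hk]

theorem hasPer_of_two {d t s v : List A} (h1 : d <+: t ++ (s ++ v)) (h2 : d <+: s ++ v) :
    HasPer d t.length := by
  intro i hi
  have h3 : (t ++ (s ++ v))[i + t.length]? = (s ++ v)[i]? := by
    rw [List.getElem?_append_right (by omega)]
    congr 1
    omega
  rw [prefix_getElem? h2 (by omega), prefix_getElem? h1 hi, h3]

theorem cr_single_aux {d : List A} (hd : LO d) (u v : List A) :
    cr {d} u v = 0 ∨ ∃ s, s <:+ u ∧ 0 < s.length ∧ d <+: s ++ v ∧ ¬ d <+: s ∧
      (cr {d} u v - 1) * (d.length + 1) + 5 ≤ 5 * s.length := by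
  induction u with
  | nil => left; rfl
  | cons a u ih =>
    have hmk : ∀ w : List A, mk {d} w ↔ d <+: w := by
      intro w
      simp [mk]
    by_cases hc : mk {d} (a :: u ++ v) ∧ ¬ mk {d} (a :: u)
    · right
      refine ⟨a :: u, List.suffix_rfl, by simp, (hmk _).1 hc.1, fun h => hc.2 ((hmk _).2 h), ?_⟩
      have hcr : cr {d} (a :: u) v = cr {d} u v + 1 := by
        simp only [cr, hc, not_false_eq_true, and_self, if_true]
      rw [hcr]
      rcases ih with h0 | ⟨s, hs, hs0, hs1, hs2, hs3⟩
      · rw [h0]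
        simp
      · obtain ⟨t, rfl⟩ := hs
        have hper : HasPer d (a :: t).length := by
          apply hasPer_of_two (s := s) (v := v) _ hs1
          have := (hmk _).1 hc.1
          simpa using this
        have hgap : d.length < 5 * (a :: t).length := by
          by_contra hle
          push Not at hle
          exact hd _ (by simp) hle hper
        rcases Nat.eq_zero_or_pos (cr {d} (t ++ s) v) with h0 | h0
        · rw [h0]
          simp
        · obtain ⟨n, hn⟩ := Nat.exists_eq_succ_of_ne_zero h0.ne'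
          rw [hn] at hs3 ⊢
          simp only [List.length_cons, List.length_append, Nat.succ_eq_add_one,
            Nat.add_sub_cancel] at hs3 hgap ⊢
          nlinarith
    · have hcr : cr {d} (a :: u) v = cr {d} u v := by
        simp only [cr, hc, if_false, add_zero]
      rw [hcr]
      rcases ih with h0 | ⟨s, hs, hs0, hs1, hs2, hs3⟩
      · exact Or.inl h0
      · exact Or.inr ⟨s, hs.trans (List.suffix_cons a u), hs0, hs1, hs2, hs3⟩

theorem cr_single_le {d : List A} (hd : LO d) (u v : List A) : cr {d} u v ≤ 5 := by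
  rcases cr_single_aux hd u v with h0 | ⟨s, hs, hs0, hs1, hs2, hs3⟩
  · omega
  · have hlt : s.length < d.length := by
      by_contra hle
      push Not at hle
      exact hs2 (List.prefix_of_prefix_length_le hs1 (List.prefix_append _ _) hle)
    by_contra hgt
    push Not at hgt
    have h5 : 5 ≤ cr {d} u v - 1 := by omega
    have := Nat.mul_le_mul_right (d.length + 1) h5
    omega

theorem cr_le_sum (D : Finset (List A)) (u v : List A) :
    cr (D : Set (List A)) u v ≤ ∑ d ∈ D, cr {d} u v := by
  classical
  induction u with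
  | nil => simp [cr]
  | cons a u ih =>
    by_cases hc : mk (D : Set (List A)) (a :: u ++ v) ∧ ¬ mk (D : Set (List A)) (a :: u)
    · have hcr : cr (D : Set (List A)) (a :: u) v = cr (D : Set (List A)) u v + 1 := by
        simp only [cr, hc, not_false_eq_true, and_self, if_true]
      rw [hcr]
      obtain ⟨⟨d, hd, hdp⟩, hn⟩ := hc
      have hn' : ¬ d <+: (a :: u) := fun h => hn ⟨d, hd, h⟩
      have hd1 : cr {d} (a :: u) v = cr {d} u v + 1 := by
        have : mk {d} (a :: u ++ v) ∧ ¬ mk {d} (a :: u) := by
          refine ⟨⟨d, rfl, hdp⟩, ?_⟩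
          rintro ⟨d', hd', h'⟩
          rw [Set.mem_singleton_iff.1 hd'] at h'
          exact hn' h'
        simp only [cr, this, not_false_eq_true, and_self, if_true]
      have hd' : d ∈ D := by simpa using hd
      rw [← Finset.add_sum_erase D _ hd', hd1]
      rw [← Finset.add_sum_erase D _ hd'] at ih
      have : ∑ x ∈ D.erase d, cr {x} u v ≤ ∑ x ∈ D.erase d, cr {x} (a :: u) v :=
        Finset.sum_le_sum fun x _ => by simp only [cr]; omega
      omega
    · have hcr : cr (D : Set (List A)) (a :: u) v = cr (D : Set (List A)) u v := by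
        simp only [cr, hc, if_false, add_zero]
      rw [hcr]
      refine ih.trans (Finset.sum_le_sum fun x _ => ?_)
      simp only [cr]
      omega

theorem cr_le (D : Finset (List A)) (hD : ∀ d ∈ D, LO d) (u v : List A) :
    cr (D : Set (List A)) u v ≤ 5 * D.card := by
  refine (cr_le_sum D u v).trans ?_
  refine (Finset.sum_le_card_nsmul D _ 5 fun d hd => cr_single_le (hD d hd) u v).trans ?_
  simp [mul_comm]

/-- Products of at most `K` words of `F`. -/
def Pw (F : Set (List A)) (K : ℕ) : Set (List A) :=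
  {v | ∃ l : List (List A), l.length ≤ K ∧ (∀ t ∈ l, t ∈ F) ∧ v = l.flatten}

def FClosed (F : Set (List A)) : Prop := ∀ u v, u <:+: v → v ∈ F → u ∈ F

variable {F : Set (List A)}

theorem pw_mono {K K' : ℕ} (h : K ≤ K') {v : List A} (hv : v ∈ Pw F K) : v ∈ Pw F K' := by
  obtain ⟨l, h1, h2, h3⟩ := hv
  exact ⟨l, h1.trans h, h2, h3⟩

theorem pw_nil (K : ℕ) : ([] : List A) ∈ Pw F K := ⟨[], by simp, by simp, by simp⟩

theorem pw_one {v : List A} (h : v ∈ F) : v ∈ Pw F 1 := ⟨[v], by simp, by simpa, by simp⟩

theorem pw_append {K K' : ℕ} {u v : List A} (hu : u ∈ Pw F K) (hv : v ∈ Pw F K') :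
    u ++ v ∈ Pw F (K + K') := by
  obtain ⟨l, h1, h2, h3⟩ := hu
  obtain ⟨l', h1', h2', h3'⟩ := hv
  refine ⟨l ++ l', by simp; omega, ?_, by simp [h3, h3']⟩
  intro t ht
  rcases List.mem_append.1 ht with h | h
  · exact h2 t h
  · exact h2' t h

theorem pw_flatten {K : ℕ} {l : List (List A)} (h : ∀ t ∈ l, t ∈ Pw F K) :
    l.flatten ∈ Pw F (l.length * K) := by
  induction l with
  | nil => exact pw_nil _
  | cons a l ih =>
    simp only [List.flatten_cons, List.length_cons]
    have := pw_append (h a (by simp)) (ih fun t ht => h t (by simp [ht]))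
    exact pw_mono (by ring_nf; omega) this

theorem infix_flatten (hF : FClosed F) (l : List (List A)) :
    ∀ K u, l.length ≤ K → (∀ t ∈ l, t ∈ F) → u <:+: l.flatten → u ∈ Pw F K := by
  induction l with
  | nil =>
    intro K u _ _ h
    have : u = [] := by simpa using h
    rw [this]
    exact pw_nil _
  | cons a l ih =>
    intro K u h1 h2 h
    obtain ⟨s, t, hst⟩ := h
    simp only [List.flatten_cons] at hst
    simp only [List.length_cons] at h1
    obtain ⟨K', rfl⟩ : ∃ K', K = K' + 1 := ⟨K - 1, by omega⟩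
    have ha : a ∈ F := h2 a (by simp)
    have hl : ∀ t ∈ l, t ∈ F := fun t ht => h2 t (by simp [ht])
    rw [List.append_assoc] at hst
    rcases List.append_eq_append_iff.1 hst with ⟨a', h3, h4⟩ | ⟨c', h3, h4⟩
    · rcases List.append_eq_append_iff.1 h4 with ⟨b', h5, h6⟩ | ⟨b', h5, h6⟩
      · refine pw_mono (by omega) (pw_one (hF u a ?_ ha))
        exact ⟨s, b', by rw [h3, h5]; simp⟩
      · rw [h5, add_comm]
        refine pw_append (pw_one (hF a' a ⟨s, [], by rw [h3]; simp⟩ ha)) ?_
        exact ih K' b' (by omega) hl ⟨[], t, by simp [h6]⟩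
    · exact pw_mono (Nat.le_succ _) (ih K' u (by omega) hl ⟨c', t, by simp [h4]⟩)

theorem pw_infix (hF : FClosed F) {K : ℕ} {u v : List A} (h : u <:+: v) (hv : v ∈ Pw F K) :
    u ∈ Pw F K := by
  obtain ⟨l, h1, h2, rfl⟩ := hv
  exact infix_flatten hF l K u h1 h2 h

end Pool.Agent.Helper85.FC
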