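import Mathlib

/-!
Definitions for the comparison of `FC[REG]` conjunctive queries with the existential
positive theory of concatenation with regular constraints. Variables are natural numbers,
the distinguished variable is `0`.
-/

namespace Pool.Agent.Helper85.FC

/-- A pattern: a word over letters `Sum.inl a` and variables `Sum.inr x`. -/
abbrev Pattern (A V : Type) := List (A ⊕ V)

/-- The morphism extending the substitution `σ`; it is the identity on letters. -/
def subst {A V : Type} (σ : V → List A) (α : Pattern A V) : List A :=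
  α.flatMap (Sum.elim (fun a => [a]) σ)

/-- A formula of `FC[REG]-CQ`: a finite conjunction of atoms `x ≐ α` (the list `eqs`) and
of regular constraints `y ∈ γ` (the list `regs`). -/
structure CQ (A V : Type) where
  eqs : List (V × Pattern A V)
  regs : List (V × RegularExpression A)

/-- A substitution satisfies a conjunctive query. -/
def CQ.Sat {A V : Type} (φ : CQ A V) (σ : V → List A) : Prop :=
  (∀ e ∈ φ.eqs, σ e.1 = subst σ e.2) ∧ ∀ r ∈ φ.regs, σ r.1 ∈ r.2.matches'

/-- `σ` is `w`-safe: every variable is sent to a factor of `σ w`. -/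
def Safe {A V : Type} (w : V) (σ : V → List A) : Prop :=
  ∀ x, ∃ p s, σ w = p ++ σ x ++ s

/-- The language of a conjunctive query: all `σ 0` with `σ` a `0`-safe substitution
satisfying the query. -/
def CQ.lang {A : Type} (φ : CQ A ℕ) : Set (List A) :=
  {u | ∃ σ : ℕ → List A, Safe 0 σ ∧ φ.Sat σ ∧ σ 0 = u}

/-- Formulas of the existential positive theory of concatenation with regular constraints. -/
inductive EPC (A : Type) where
  | eq (α β : Pattern A ℕ) : EPC A
  | mem (x : ℕ) (γ : RegularExpression A) : EPC A
  | and (φ ψ : EPC A) : EPC A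
  | or (φ ψ : EPC A) : EPC A
  | ex (x : ℕ) (φ : EPC A) : EPC A

/-- Truth of a formula under an assignment; variables range over all words. -/
def EPC.Sat {A : Type} : EPC A → (ℕ → List A) → Prop
  | .eq α β, σ => subst σ α = subst σ β
  | .mem x γ, σ => σ x ∈ γ.matches'
  | .and φ ψ, σ => φ.Sat σ ∧ ψ.Sat σ
  | .or φ ψ, σ => φ.Sat σ ∨ ψ.Sat σ
  | .ex x φ, σ => ∃ u, φ.Sat (Function.update σ x u)

/-- Free variables. -/
def EPC.free {A : Type} : EPC A → Set ℕ
  | .eq α β => {x | Sum.inr x ∈ α ∨ Sum.inr x ∈ β}
  | .mem x _ => {x}
  | .and φ ψ => φ.free ∪ ψ.free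
  | .or φ ψ => φ.free ∪ ψ.free
  | .ex x φ => φ.free \ {x}

/-- The language defined by a formula with `0` as its only free variable: all words `u` such
that the formula holds when `0` has the value `u` (the values of the other variables do not
matter, see `EPC.mem_lang_iff` below). -/
def EPC.lang {A : Type} (φ : EPC A) : Set (List A) :=
  {u | ∃ σ : ℕ → List A, φ.Sat σ ∧ σ 0 = u}

/-- The class of languages defined by `FC[REG]` conjunctive queries. -/
def ClassFCRegCQ (A : Type) : Set (Set (List A)) := {L | ∃ φ : CQ A ℕ, φ.lang = L}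

/-- The class of languages defined by formulas of the existential positive theory of
concatenation with regular constraints in which only the distinguished variable is free. -/
def ClassEPCReg (A : Type) : Set (Set (List A)) :=
  {L | ∃ ψ : EPC A, ψ.free ⊆ {0} ∧ ψ.lang = L}

theorem subst_congr {A V : Type} {σ τ : V → List A} {α : Pattern A V}
    (h : ∀ x, Sum.inr x ∈ α → σ x = τ x) : subst σ α = subst τ α := by
  unfold subst
  induction α with
  | nil => rfl
  | cons a α ih =>
    rw [List.flatMap_cons, List.flatMap_cons, ih fun x hx => h x (List.mem_cons_of_mem _ hx)]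
    cases a with
    | inl a => rfl
    | inr x => simp [h x (by simp)]

theorem EPC.sat_congr {A : Type} (φ : EPC A) : ∀ {σ τ : ℕ → List A},
    (∀ x ∈ φ.free, σ x = τ x) → (φ.Sat σ ↔ φ.Sat τ) := by
  induction φ with
  | eq α β =>
    intro σ τ h
    simp only [EPC.Sat]
    rw [subst_congr (α := α) fun x hx => h x (Or.inl hx),
      subst_congr (α := β) fun x hx => h x (Or.inr hx)]
  | mem x γ =>
    intro σ τ h
    simp only [EPC.Sat]
    rw [h x rfl]
  | and φ ψ ih1 ih2 =>
    intro σ τ h
    simp only [EPC.Sat]
    rw [ih1 fun x hx => h x (Or.inl hx), ih2 fun x hx => h x (Or.inr hx)]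
  | or φ ψ ih1 ih2 =>
    intro σ τ h
    simp only [EPC.Sat]
    rw [ih1 fun x hx => h x (Or.inl hx), ih2 fun x hx => h x (Or.inr hx)]
  | ex y φ ih =>
    intro σ τ h
    simp only [EPC.Sat]
    refine exists_congr fun u => ih fun x hx => ?_
    by_cases hxy : x = y
    · subst hxy
      simp
    · rw [Function.update_of_ne hxy, Function.update_of_ne hxy]
      exact h x ⟨hx, hxy⟩

/-- For a formula in which only `0` is free, membership in the language can be tested with
any assignment giving `0` the right value. -/
theorem EPC.mem_lang_iff {A : Type} (φ : EPC A) (hφ : φ.free ⊆ {0}) (σ : ℕ → List A) :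
    σ 0 ∈ φ.lang ↔ φ.Sat σ := by
  constructor
  · rintro ⟨τ, h1, h2⟩
    refine (φ.sat_congr fun x hx => ?_).1 h1
    rw [Set.mem_singleton_iff.1 (hφ hx), h2]
  · intro h
    exact ⟨σ, h, rfl⟩

end Pool.Agent.Helper85.FC
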