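import Pool.Agent.Helper85.FC.Cross

/-! The block structure of the two sides of an equation. -/

namespace Pool.Agent.Helper85.FC

variable {A Y : Type} {D F : Set (List A)}

/-- evaluation of block patterns -/
def ev {X T : Type} (c : Y → List T) (g : X → T) (P : List (Y ⊕ X)) : List T :=
  P.flatMap (Sum.elim c (fun x => [g x]))

theorem ev_append {X T : Type} (c : Y → List T) (g : X → T) (P Q : List (Y ⊕ X)) :
    ev c g (P ++ Q) = ev c g P ++ ev c g Q := by simp [ev]

theorem ev_inr {X T : Type} (c : Y → List T) (g : X → T) (P : List X) :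
    ev c g (P.map Sum.inr) = P.map g := by
  induction P with
  | nil => rfl
  | cons a P ih =>
    simp only [ev] at ih
    simp [ev, ih]

theorem ev_map {X T T' : Type} (c : Y → List T) (g : X → T) (f : T → T') (P : List (Y ⊕ X)) :
    (ev c g P).map f = ev (fun y => (c y).map f) (f ∘ g) P := by
  induction P with
  | nil => rfl
  | cons a P ih =>
    simp only [ev] at ih
    cases a with
    | inl y => simp [ev, ih]
    | inr x => simp [ev, ih]

theorem ev_code {X X' T : Type} (c : Y → List T) (g : X' → T) (q : X → X') (P : List (Y ⊕ X)) :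
    ev c g (P.map (Sum.map id q)) = ev c (g ∘ q) P := by
  induction P with
  | nil => rfl
  | cons a P ih =>
    simp only [ev] at ih
    cases a with
    | inl y => simp [ev, ih]
    | inr x => simp [ev, ih]

theorem ev_congr {X T : Type} (c : Y → List T) (g g' : X → T) (P : List (Y ⊕ X))
    (h : ∀ x, Sum.inr x ∈ P → g x = g' x) : ev c g P = ev c g' P := by
  induction P with
  | nil => rfl
  | cons a P ih =>
    have ih' := ih fun x hx => h x (by simp [hx])
    simp only [ev] at ih'
    cases a with
    | inl y => simp [ev, ih']
    | inr x => simp [ev, ih', h x (by simp)]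

noncomputable def core (D : Set (List A)) (σ : Y → List A) (y : Y) : List (List A) :=
  (toks D (σ y)).2.dropLast

noncomputable def lastT (D : Set (List A)) (σ : Y → List A) (y : Y) : List A :=
  (toks D (σ y)).2.getLastD []

open Classical in
noncomputable def newσ (D : Set (List A)) (σ : Y → List A) (c' : Y → List (List A)) (y : Y) :
    List A :=
  if (toks D (σ y)).2 = [] then σ y
  else (toks D (σ y)).1 ++ (c' y).flatten ++ lastT D σ y

theorem core_last {σ : Y → List A} {y : Y} (h : (toks D (σ y)).2 ≠ []) :
    (toks D (σ y)).2 = core D σ y ++ [lastT D σ y] := by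
  unfold core lastT
  rw [List.getLastD_eq_getLast?, List.getLast?_eq_some_getLast h]
  exact (List.dropLast_append_getLast h).symm

theorem pat (hD : Anti D) {N : ℕ} (hcr : ∀ u v, cr D u v ≤ N) (hF : FClosed F)
    (σ : Y → List A) (hun : ∀ y, (toks D (σ y)).2 = [] → σ y ∈ F)
    (hA : ∀ y, (toks D (σ y)).2 ≠ [] → (toks D (σ y)).1 ∈ F)
    (hB : ∀ y, (toks D (σ y)).2 ≠ [] → lastT D σ y ∈ Pw F 2) (α : List Y) :
    ∃ P : List (Y ⊕ List A), (toks D (α.flatMap σ)).2 = ev (core D σ) id P ∧
      P.length ≤ α.length * (N + 2) ∧ (∀ t, Sum.inr t ∈ P → t ∈ Pw F (α.length + 2)) ∧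
      (toks D (α.flatMap σ)).1 ∈ Pw F α.length ∧
      ∀ c', α.flatMap (newσ D σ c') = (toks D (α.flatMap σ)).1 ++ (ev c' id P).flatten := by
  induction α with
  | nil => exact ⟨[], by simp [toks, ev], by simp, by simp, by simpa [toks] using pw_nil 0,
      by simp [toks, ev]⟩
  | cons s α ih =>
    obtain ⟨P, h1, h2, h3, h4, h5⟩ := ih
    have hadd : (s :: α).flatMap σ = σ s ++ α.flatMap σ := by simp
    rw [hadd]
    by_cases hs : (toks D (σ s)).2 = []
    · obtain ⟨A', X, k1, k2, k3⟩ := cat_unmarked (σ s) (α.flatMap σ) hs
      have hpw : σ s ++ (toks D (α.flatMap σ)).1 ∈ Pw F (α.length + 1) := by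
        rw [add_comm]
        exact pw_append (pw_one (hun s hs)) h4
      refine ⟨X.map Sum.inr ++ P, ?_, ?_, ?_, ?_, ?_⟩
      · rw [k1, ev_append, ev_inr, h1]
        simp
      · have := hcr (σ s) (α.flatMap σ)
        simp only [List.length_append, List.length_map, List.length_cons]
        nlinarith
      · intro t ht
        rcases List.mem_append.1 ht with ht | ht
        · have htX : t ∈ X := by simpa using ht
          have : t <:+: σ s ++ (toks D (α.flatMap σ)).1 := by
            rw [← k2]
            exact (List.infix_of_mem_flatten htX).trans (List.suffix_append _ _).isInfix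
          exact pw_mono (by simp) (pw_infix hF this hpw)
        · exact pw_mono (by simp) (h3 t ht)
      · rw [k1]
        refine pw_infix hF ?_ hpw
        rw [← k2]
        exact (List.prefix_append _ _).isInfix
      · intro c'
        rw [k1, ev_append, ev_inr]
        have : (s :: α).flatMap (newσ D σ c') = newσ D σ c' s ++ α.flatMap (newσ D σ c') := by simp
        rw [this, h5 c']
        simp only [newσ, hs, if_true, List.map_id, List.flatten_append]
        rw [← List.append_assoc, ← k2]
        simp
    · obtain ⟨X, k1, k2, k3⟩ := cat_marked hD (σ s) (α.flatMap σ) (core_last hs)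
      have hpw : lastT D σ s ++ (toks D (α.flatMap σ)).1 ∈ Pw F (α.length + 2) := by
        rw [add_comm]
        exact pw_append (hB s hs) h4
      refine ⟨Sum.inl s :: (X.map Sum.inr ++ P), ?_, ?_, ?_, ?_, ?_⟩
      · rw [k1]
        have : ev (core D σ) id (Sum.inl s :: (X.map Sum.inr ++ P)) =
            core D σ s ++ ev (core D σ) id (X.map Sum.inr ++ P) := by simp [ev]
        rw [this, ev_append, ev_inr, h1]
        simp
      · have := hcr (σ s) (α.flatMap σ)
        simp only [List.length_append, List.length_map, List.length_cons]
        nlinarith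
      · intro t ht
        have ht' : Sum.inr t ∈ X.map Sum.inr ++ P := by simpa using ht
        rcases List.mem_append.1 ht' with ht | ht
        · have htX : t ∈ X := by simpa using ht
          have : t <:+: lastT D σ s ++ (toks D (α.flatMap σ)).1 := by
            rw [← k2]
            exact List.infix_of_mem_flatten htX
          exact pw_mono (by simp) (pw_infix hF this hpw)
        · exact pw_mono (by simp) (h3 t ht)
      · rw [k1]
        exact pw_mono (by simp) (pw_one (hA s hs))
      · intro c'
        rw [k1]
        have : (s :: α).flatMap (newσ D σ c') = newσ D σ c' s ++ α.flatMap (newσ D σ c') := by simp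
        rw [this, h5 c']
        have h6 : ev c' id (Sum.inl s :: (X.map Sum.inr ++ P)) =
            c' s ++ ev c' id (X.map Sum.inr ++ P) := by simp [ev]
        rw [h6, ev_append, ev_inr]
        simp only [newσ, hs, if_false, List.map_id, List.flatten_append, k2]
        simp

end Pool.Agent.Helper85.FC
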