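import Pool.Agent.Helper85.FC.Block2

/-! Periodic words and their factors. -/

namespace Pool.Agent.Helper85.FC

variable {A : Type}

@[simp] theorem run_length (f : ℕ → A) (s l : ℕ) : (run f s l).length = l := by simp [run]

theorem run_getElem? (f : ℕ → A) (s l i : ℕ) (h : i < l) : (run f s l)[i]? = some (f (s + i)) := by
  simp [run, h]

@[simp] theorem run_zero (f : ℕ → A) (s : ℕ) : run f s 0 = [] := by simp [run]

theorem run_add (f : ℕ → A) (s l l' : ℕ) : run f s (l + l') = run f s l ++ run f (s + l) l' := by
  simp only [run, List.range_add, List.map_append, List.map_map]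
  congr 1
  apply List.map_congr_left
  intro i _
  simp [add_assoc]

theorem run_succ (f : ℕ → A) (s l : ℕ) : run f s (l + 1) = run f s l ++ [f (s + l)] := by
  rw [run_add]
  simp [run]

theorem run_succ' (f : ℕ → A) (s l : ℕ) : run f s (l + 1) = f s :: run f (s + 1) l := by
  rw [add_comm l 1, run_add]
  simp [run]

theorem run_congr {f g : ℕ → A} {s s' l : ℕ} (h : ∀ i, i < l → f (s + i) = g (s' + i)) :
    run f s l = run g s' l := by
  simp only [run]
  apply List.map_congr_left
  intro i hi
  exact h i (List.mem_range.1 hi)

theorem run_inj {f g : ℕ → A} {s s' l : ℕ} (h : run f s l = run g s' l) {i : ℕ} (hi : i < l) :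
    f (s + i) = g (s' + i) := by
  have h1 := run_getElem? f s l i hi
  rw [h, run_getElem? g s' l i hi] at h1
  exact (Option.some.inj h1).symm

/-- factors of runs are runs -/
theorem infix_run {f : ℕ → A} {s l : ℕ} {v : List A} (h : v <:+: run f s l) :
    ∃ k, k + v.length ≤ l ∧ v = run f (s + k) v.length := by
  obtain ⟨x, y, hxy⟩ := h
  have hlen : x.length + v.length + y.length = l := by
    have := congrArg List.length hxy
    simpa [add_assoc] using this
  refine ⟨x.length, by omega, ?_⟩
  have h2 : run f s l = run f s x.length ++ (run f (s + x.length) v.length ++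
      run f (s + x.length + v.length) y.length) := by
    rw [← hlen, add_assoc, run_add, run_add]
  rw [h2, List.append_assoc] at hxy
  have h3 := List.append_inj hxy (by simp)
  exact (List.append_inj h3.2 (by simp)).1

theorem run_infix (f : ℕ → A) (s k m l : ℕ) (h : k + m ≤ l) :
    run f (s + k) m <:+: run f s l := by
  refine ⟨run f s k, run f (s + k + m) (l - (k + m)), ?_⟩
  have : l = k + m + (l - (k + m)) := by omega
  conv_rhs => rw [this, run_add, run_add, ← add_assoc]

theorem per_mul {f : ℕ → A} {d : ℕ} (hf : ∀ i, f (i + d) = f i) (k i : ℕ) :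
    f (i + d * k) = f i := by
  induction k with
  | zero => simp
  | succ k ih => rw [Nat.mul_succ, ← add_assoc, hf, ih]

theorem per_mod {f : ℕ → A} {d : ℕ} (hf : ∀ i, f (i + d) = f i) {i j : ℕ}
    (h : i ≡ j [MOD d]) : f i = f j := by
  rcases le_total i j with hij | hij
  · obtain ⟨k, hk⟩ := (Nat.modEq_iff_dvd' hij).1 h
    have : j = i + d * k := by omega
    rw [this, per_mul hf]
  · obtain ⟨k, hk⟩ := (Nat.modEq_iff_dvd' hij).1 h.symm
    have : i = j + d * k := by omega
    rw [this, per_mul hf]

theorem run_mod {f : ℕ → A} {d : ℕ} (hf : ∀ i, f (i + d) = f i) {s s' : ℕ}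
    (h : s ≡ s' [MOD d]) (l : ℕ) : run f s l = run f s' l :=
  run_congr fun _ _ => per_mod hf (h.add_right _)

/-- A long window with period `q` forces the period `q`. -/
theorem per_of_window {f : ℕ → A} {d : ℕ} (hd : 0 < d) (hf : ∀ i, f (i + d) = f i)
    {s l q : ℕ} (hl : d + q ≤ l) (h : HasPer (run f s l) q) : ∀ j, f (j + q) = f j := by
  intro j
  -- choose `i < d` with `s + i ≡ j`
  obtain ⟨i, hi, hij⟩ : ∃ i, i < d ∧ s + i ≡ j [MOD d] := by
    refine ⟨(j + (d * s - s)) % d, Nat.mod_lt _ hd, ?_⟩
    have h1 : s + (j + (d * s - s)) % d ≡ s + (j + (d * s - s)) [MOD d] :=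
      Nat.ModEq.add_left _ (Nat.mod_modEq _ _)
    have h2 : s + (j + (d * s - s)) = j + d * s := by
      have : s ≤ d * s := Nat.le_mul_of_pos_left s hd
      omega
    rw [h2] at h1
    refine h1.trans ?_
    simp [Nat.ModEq]
  have h3 := h i (by simp; omega)
  rw [run_getElem? _ _ _ _ (by omega), run_getElem? _ _ _ _ (by omega)] at h3
  have h4 : f (s + i) = f (s + (i + q)) := Option.some.inj h3
  rw [per_mod hf (hij.symm.add_right q), per_mod hf hij.symm, h4]
  congr 1
  omega

/-- A root relative to a set `F0` of words: a periodic word whose short factors lie in `F0`. -/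
structure IsRoot (F0 : Set (List A)) (f : ℕ → A) (d : ℕ) : Prop where
  pos : 0 < d
  per : ∀ i, f (i + d) = f i
  small : ∀ s l, l ≤ 4 * d → run f s l ∈ F0

/-- `F0` together with all factors of roots. -/
def Fplus (F0 : Set (List A)) : Set (List A) :=
  {v | v ∈ F0 ∨ ∃ f d, IsRoot F0 f d ∧ ∃ s l, v = run f s l}

theorem fplus_closed {F0 : Set (List A)} (h : FClosed F0) : FClosed (Fplus F0) := by
  rintro u v huv (hv | ⟨f, d, hr, s, l, rfl⟩)
  · exact Or.inl (h u v huv hv)
  · obtain ⟨k, _, hk⟩ := infix_run huv
    exact Or.inr ⟨f, d, hr, _, _, hk⟩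

theorem getElem?_of_run {p : List A} (a : A) {d : ℕ} (hd : 0 < d) (hp : HasPer p d)
    (hl : d ≤ p.length) : p = run (fun i => p.getD (i % d) a) 0 p.length := by
  apply List.ext_getElem?
  intro i
  by_cases hi : i < p.length
  · rw [run_getElem? _ _ _ _ hi]
    have key : ∀ n, ∀ i, i < p.length → i ≤ n → p[i]? = p[i % d]? := by
      intro n
      induction n with
      | zero =>
        intro i hi hin
        have : i = 0 := by omega
        subst this
        simp
      | succ n ih =>
        intro i hi hin
        by_cases hid : i < d
        · rw [Nat.mod_eq_of_lt hid]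
        · push Not at hid
          have h1 := hp (i - d) (by omega)
          rw [Nat.sub_add_cancel hid] at h1
          rw [← h1, ih (i - d) (by omega) (by omega)]
          congr 1
          rw [Nat.mod_eq_sub_mod hid]
    rw [key i i hi le_rfl]
    have hlt : i % d < p.length := (Nat.mod_lt _ hd).trans_le hl
    simp only [zero_add]
    rw [List.getD_eq_getElem _ _ hlt, List.getElem?_eq_getElem hlt]
  · rw [List.getElem?_eq_none (by omega), List.getElem?_eq_none (by simp; omega)]

theorem exists_root {F0 : Set (List A)} (hF : FClosed F0) {p : List A} (hLO : ¬ LO p)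
    (h : p.dropLast ∈ F0 ∨ p.tail ∈ F0) : ∃ f d, IsRoot F0 f d ∧ ∃ s l, p = run f s l := by
  unfold LO at hLO
  push Not at hLO
  obtain ⟨d, hd, h5, hper⟩ := hLO
  cases p with
  | nil => simp at h5; omega
  | cons a p' =>
    set p := a :: p' with hp
    have hrun := getElem?_of_run a hd hper (by omega)
    set f : ℕ → A := fun i => p.getD (i % d) a with hf
    have hfper : ∀ i, f (i + d) = f i := by
      intro i
      simp [hf]
    refine ⟨f, d, ⟨hd, hfper, ?_⟩, 0, p.length, hrun⟩
    intro s l hl
    rcases h with h | h
    · have h1 : p.dropLast = run f 0 (p.length - 1) := by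
        have h2 : p.length = (p.length - 1) + 1 := by omega
        rw [h2, run_succ] at hrun
        conv_lhs => rw [hrun]
        simp
      have h3 : run f s l = run f (0 + s % d) l :=
        run_mod hfper (by rw [zero_add]; exact (Nat.mod_modEq _ _).symm) l
      rw [h3]
      refine hF _ _ ?_ h
      rw [h1]
      apply run_infix
      have := Nat.mod_lt s hd
      omega
    · have h1 : p.tail = run f 1 (p.length - 1) := by
        have h2 : p.length = (p.length - 1) + 1 := by omega
        rw [h2, run_succ'] at hrun
        conv_lhs => rw [hrun]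
        simp
      obtain ⟨s', hs1, hs2, hs3⟩ : ∃ s', 1 ≤ s' ∧ s' ≤ d ∧ s ≡ s' [MOD d] := by
        by_cases h0 : s % d = 0
        · refine ⟨d, hd, le_rfl, ?_⟩
          simp [Nat.ModEq, h0]
        · exact ⟨s % d, by omega, (Nat.mod_lt s hd).le, (Nat.mod_modEq _ _).symm⟩
      have h3 : run f s l = run f (1 + (s' - 1)) l :=
        run_mod hfper (by rw [Nat.add_sub_cancel' hs1]; exact hs3) l
      rw [h3]
      refine hF _ _ ?_ h
      rw [h1]
      apply run_infix
      omega

theorem lo_prefix {F0 : Set (List A)} (hF : FClosed F0) (hnil : [] ∈ F0) {p : List A}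
    (hp : p ∉ Fplus F0) (hmin : ∀ q, q <+: p → q ≠ p → q ∈ Fplus F0) : LO p := by
  by_contra hLO
  rcases List.eq_nil_or_concat p with rfl | ⟨p', a, rfl⟩
  · exact hp (Or.inl hnil)
  · simp only [List.concat_eq_append] at hp hmin hLO
    have hp' : p' ∈ Fplus F0 := hmin p' (List.prefix_append _ _) (by
      intro h
      have := congrArg List.length h
      simp at this)
    rcases hp' with hp' | ⟨f, d, hr, s, l, rfl⟩
    · exact hp (Or.inr (exists_root hF hLO (Or.inl (by simpa using hp'))))
    · by_cases hin : run f s l ∈ F0
      · exact hp (Or.inr (exists_root hF hLO (Or.inl (by simpa using hin))))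
      · have hl : 4 * d < l := by
          by_contra hle
          push Not at hle
          exact hin (hr.small s l hle)
        unfold LO at hLO
        push Not at hLO
        obtain ⟨q, hq, h5, hper⟩ := hLO
        simp only [List.length_append, run_length, List.length_singleton] at h5
        have hper' : HasPer (run f s l) q := by
          intro i hi
          have := hper i (by simp at hi ⊢; omega)
          simp only [run_length] at hi
          rw [List.getElem?_append_left (by simp; omega),
            List.getElem?_append_left (by simp; omega)] at this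
          exact this
        have hqf := per_of_window hr.pos hr.per (by omega) hper'
        have h3 := hper (l - q) (by simp; omega)
        rw [List.getElem?_append_left (by simp; omega), run_getElem? _ _ _ _ (by omega),
          List.getElem?_append_right (by simp; omega)] at h3
        have h4 : l - q + q - (run f s l).length = 0 := by simp; omega
        rw [h4] at h3
        simp only [List.getElem?_cons_zero, Option.some.injEq] at h3
        apply hp
        right
        refine ⟨f, d, hr, s, l + 1, ?_⟩
        rw [run_succ, ← h3]
        congr 2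
        rw [← hqf (s + (l - q))]
        congr 1
        omega

theorem lo_suffix {F0 : Set (List A)} (hF : FClosed F0) (hnil : [] ∈ F0) {p : List A}
    (hp : p ∉ Fplus F0) (hmin : ∀ q, q <:+ p → q ≠ p → q ∈ Fplus F0) : LO p := by
  by_contra hLO
  cases p with
  | nil => exact hp (Or.inl hnil)
  | cons a p' =>
    have hp' : p' ∈ Fplus F0 := hmin p' (List.suffix_cons _ _) (by
      intro h
      have := congrArg List.length h
      simp at this)
    by_cases hin : p' ∈ F0
    · exact hp (Or.inr (exists_root hF hLO (Or.inr (by simpa using hin))))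
    · rcases hp' with hp' | ⟨f, d, hr, s, l, rfl⟩
      · exact hin hp'
      · have hl : 4 * d < l := by
          by_contra hle
          push Not at hle
          exact hin (hr.small s l hle)
        unfold LO at hLO
        push Not at hLO
        obtain ⟨q, hq, h5, hper⟩ := hLO
        simp only [List.length_cons, run_length] at h5
        have hper' : HasPer (run f s l) q := by
          intro i hi
          have := hper (i + 1) (by simp at hi ⊢; omega)
          rw [List.getElem?_cons_succ] at this
          rw [this, show i + 1 + q = (i + q) + 1 by omega, List.getElem?_cons_succ]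
        have hqf := per_of_window hr.pos hr.per (by omega) hper'
        have h3 := hper 0 (by simp; omega)
        obtain ⟨q', rfl⟩ : ∃ q', q = q' + 1 := ⟨q - 1, by omega⟩
        rw [zero_add, List.getElem?_cons_zero, List.getElem?_cons_succ,
          run_getElem? _ _ _ _ (by omega)] at h3
        simp only [Option.some.injEq] at h3
        apply hp
        right
        refine ⟨f, d, hr, s + d - 1, l + 1, ?_⟩
        rw [run_succ']
        have hd := hr.pos
        congr 1
        · rw [h3, ← hr.per (s + q'), ← hqf (s + d - 1)]
          congr 1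
          omega
        · rw [show s + d - 1 + 1 = s + d by omega]
          exact run_congr fun i _ => by rw [← hr.per (s + i)]; congr 1; omega

end Pool.Agent.Helper85.FC
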