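import Pool.Agent.Helper85.FC.Roots

/-! Shortening all runs, one root at a time. -/

namespace Pool.Agent.Helper85.FC

variable {A : Type}

theorem run_shift {f : ℕ → A} {d : ℕ} (hd : 0 < d) (hf : ∀ i, f (i + d) = f i) (s0 s m l : ℕ)
    (h : m + d ≤ l + 1) : run f s m <:+: run f s0 l := by
  obtain ⟨i, hi, hij⟩ : ∃ i, i < d ∧ s0 + i ≡ s [MOD d] := by
    refine ⟨(s + (d * s0 - s0)) % d, Nat.mod_lt _ hd, ?_⟩
    have h1 : s0 + (s + (d * s0 - s0)) % d ≡ s0 + (s + (d * s0 - s0)) [MOD d] :=
      Nat.ModEq.add_left _ (Nat.mod_modEq _ _)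
    have h2 : s0 + (s + (d * s0 - s0)) = s + d * s0 := by
      have : s0 ≤ d * s0 := Nat.le_mul_of_pos_left s0 hd
      omega
    rw [h2] at h1
    refine h1.trans ?_
    simp [Nat.ModEq]
  rw [← run_mod hf hij m]
  exact run_infix f s0 i m l (by omega)

theorem run_pw {F0 : Set (List A)} {f : ℕ → A} {m0 : ℕ} (hm : ∀ s m, m ≤ m0 → run f s m ∈ F0)
    (n : ℕ) : ∀ s l, l ≤ n * m0 → run f s l ∈ Pw F0 n := by
  induction n with
  | zero =>
    intro s l hl
    have : l = 0 := by omega
    rw [this, run_zero]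
    exact pw_nil _
  | succ n ih =>
    intro s l hl
    by_cases h : l ≤ m0
    · exact pw_mono (by omega) (pw_one (hm s l h))
    · push Not at h
      have h2 : l = m0 + (l - m0) := by omega
      rw [h2, run_add, add_comm n 1]
      refine pw_append (pw_one (hm s m0 le_rfl)) (ih _ _ ?_)
      rw [Nat.succ_mul] at hl
      omega

theorem root_pw {F0 : Set (List A)} (hF : FClosed F0) {f : ℕ → A} {d lam : ℕ}
    (hr : IsRoot F0 f d) (h1 : ∃ s, run f s lam ∈ F0) (h2 : ∀ s l, run f s l ∈ F0 → l ≤ lam)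
    (G s l : ℕ) (hl : l ≤ G * lam) : run f s l ∈ Pw F0 (2 * G) := by
  obtain ⟨s0, hs0⟩ := h1
  have h4 : 4 * d ≤ lam := h2 0 (4 * d) (hr.small 0 _ le_rfl)
  have hd := hr.pos
  refine run_pw (m0 := lam - d) ?_ (2 * G) s l ?_
  · intro s' m hm
    exact hF _ _ (run_shift hr.pos hr.per s0 s' m lam (by omega)) hs0
  · have h5 : lam ≤ 2 * (lam - d) := by omega
    calc l ≤ G * lam := hl
      _ ≤ G * (2 * (lam - d)) := Nat.mul_le_mul_left _ h5
      _ = 2 * G * (lam - d) := by ring

theorem other_root {F0 : Set (List A)} {f g : ℕ → A} {d e : ℕ} (hf : IsRoot F0 f d)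
    (hg : IsRoot F0 g e) {s s' l : ℕ} (h : run f s l = run g s' l) (hn : run f s l ∉ F0)
    (s'' l'' : ℕ) : ∃ t, run g s'' l'' = run f t l'' := by
  have h1 : 4 * d < l := by
    by_contra hle
    push Not at hle
    exact hn (hf.small s l hle)
  have h2 : 4 * e < l := by
    by_contra hle
    push Not at hle
    exact hn (h ▸ hg.small s' l hle)
  have hd := hf.pos
  have he := hg.pos
  have hgd : ∀ j, g (j + d) = g j := by
    apply per_of_window (l := l) (s := s') hg.pos hg.per (by omega)
    rw [← h]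
    intro i hi
    simp only [run_length] at hi
    rw [run_getElem? _ _ _ _ (by omega), run_getElem? _ _ _ _ hi, ← add_assoc, hf.per]
  have hagree : ∀ i, f (s + i) = g (s' + i) := by
    intro i
    have hlt : i % d < l := (Nat.mod_lt i hd).trans (by omega)
    have h3 := run_inj h hlt
    have h4 : s + i ≡ s + i % d [MOD d] := Nat.ModEq.add_left _ (Nat.mod_modEq _ _).symm
    have h5 : s' + i ≡ s' + i % d [MOD d] := Nat.ModEq.add_left _ (Nat.mod_modEq _ _).symm
    rw [per_mod hf.per h4, per_mod hgd h5, h3]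
  refine ⟨s + (s'' + (e * s' - s')), ?_⟩
  have h6 : s' ≤ e * s' := Nat.le_mul_of_pos_left s' he
  have h7 : run g s'' l'' = run g (s' + (s'' + (e * s' - s'))) l'' := by
    apply run_mod hg.per
    have : s' + (s'' + (e * s' - s')) = s'' + e * s' := by omega
    rw [this]
    simp [Nat.ModEq]
  rw [h7]
  apply run_congr
  intro i _
  have h8 := hagree (s'' + (e * s' - s') + i)
  rw [add_assoc s', add_assoc s, h8]

theorem stages (hsr : SRStatement) {A Y M : Type} [Finite Y] [Monoid M] [Finite M]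
    (h : List A → M) (h1 : h [] = 1) (hmul : ∀ u v, h (u ++ v) = h u * h v)
    (eqs : List (List Y × List Y)) :
    ∃ G, ∀ (F0 : Set (List A)), FClosed F0 → ∀ Lmax, (∀ v ∈ F0, v.length ≤ Lmax) →
      ∀ τ : Y → List A, (∀ y, τ y ∈ Fplus F0) →
      (∀ e ∈ eqs, e.1.flatMap τ = e.2.flatMap τ) →
      ∃ τ' : Y → List A, (∀ e ∈ eqs, e.1.flatMap τ' = e.2.flatMap τ') ∧
        (∀ y, τ y ∈ F0 → τ' y = τ y) ∧ (∀ y, h (τ' y) = h (τ y)) ∧
        ∀ y, τ' y ∈ Pw F0 (2 * G + 1) := by
  classical
  have : Fintype Y := Fintype.ofFinite Y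
  obtain ⟨G, hG⟩ := hsr A Y M h h1 hmul eqs
  refine ⟨G, ?_⟩
  intro F0 hF Lmax hbd
  -- main induction
  have main : ∀ n, ∀ (U : Finset Y), U.card ≤ n → ∀ τ : Y → List A, (∀ y, τ y ∈ Fplus F0) →
      (∀ e ∈ eqs, e.1.flatMap τ = e.2.flatMap τ) →
      (∀ y, y ∉ U → τ y ∈ Pw F0 (2 * G + 1)) →
      ∃ τ' : Y → List A, (∀ e ∈ eqs, e.1.flatMap τ' = e.2.flatMap τ') ∧
        (∀ y, τ y ∈ F0 → τ' y = τ y) ∧ (∀ y, h (τ' y) = h (τ y)) ∧
        ∀ y, τ' y ∈ Pw F0 (2 * G + 1) := by
    intro n
    induction n with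
    | zero =>
      intro U hU τ hτ heqs hout
      have hU0 : U = ∅ := Finset.card_eq_zero.1 (by omega)
      subst hU0
      exact ⟨τ, heqs, fun _ _ => rfl, fun _ => rfl, fun y => hout y (by simp)⟩
    | succ n ih =>
      intro U hU τ hτ heqs hout
      by_cases hall : ∀ y ∈ U, τ y ∈ F0
      · refine ⟨τ, heqs, fun _ _ => rfl, fun _ => rfl, fun y => ?_⟩
        by_cases hy : y ∈ U
        · exact pw_mono (by omega) (pw_one (hall y hy))
        · exact hout y hy
      · push Not at hall
        obtain ⟨y0, hy0U, hy0⟩ := hall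
        obtain ⟨f, d, hr, s0, l0, hrun0⟩ := (hτ y0).resolve_left hy0
        -- the maximal length of a run of `f` in `F0`
        set Pd : ℕ → Prop := fun l => ∃ s, run f s l ∈ F0 with hPd
        set lam := Nat.findGreatest Pd Lmax with hlam
        have hle : ∀ s l, run f s l ∈ F0 → l ≤ lam := by
          intro s l hl
          have : l ≤ Lmax := by simpa using hbd _ hl
          exact Nat.le_findGreatest this ⟨s, hl⟩
        have hex : ∃ s, run f s lam ∈ F0 := by
          have h0 : Pd 0 := ⟨0, hr.small 0 0 (by omega)⟩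
          exact Nat.findGreatest_spec (P := Pd) (Nat.zero_le _) h0
        have h4d : 4 * d ≤ lam := hle 0 _ (hr.small 0 _ le_rfl)
        set Y1 : Set Y := {y | τ y ∉ F0 ∧ ∃ s l, τ y = run f s l} with hY1
        obtain ⟨τ1, t1, t2, t3, t4⟩ := hG f d lam hr.pos hr.per (by omega) τ Y1 heqs
          (fun y hy => hy.2) (by
            intro y hy s l hrun
            by_cases hin : run f s l ∈ F0
            · exact hle s l hin
            · exfalso
              have hyF : τ y ∉ F0 := fun h' => hin (hF _ _ hrun h')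
              obtain ⟨g, e, hg, s1, l1, hrun1⟩ := (hτ y).resolve_left hyF
              rw [hrun1] at hrun
              obtain ⟨k, _, hk⟩ := infix_run hrun
              rw [run_length] at hk
              obtain ⟨t, ht⟩ := other_root hr hg hk hin s1 l1
              exact hy ⟨hyF, t, l1, by rw [hrun1, ht]⟩)
        have hτ1 : ∀ y, τ1 y ∈ Fplus F0 := by
          intro y
          by_cases hy : y ∈ Y1
          · obtain ⟨s, l, h5, _⟩ := t3 y hy
            exact Or.inr ⟨f, d, hr, s, l, h5⟩
          · rw [t2 y hy]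
            exact hτ y
        have hcard : (U.filter fun y => y ∉ Y1).card ≤ n := by
          have hlt : (U.filter fun y => y ∉ Y1).card < U.card := by
            apply Finset.card_lt_card
            rw [Finset.filter_ssubset]
            exact ⟨y0, hy0U, by
              simp only [not_not]
              exact ⟨hy0, s0, l0, hrun0⟩⟩
          omega
        obtain ⟨τ', r1, r2, r3, r4⟩ := ih _ hcard τ1 hτ1 t1 (by
          intro y hy
          by_cases hy1 : y ∈ Y1
          · obtain ⟨s, l, h5, h6⟩ := t3 y hy1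
            rw [h5]
            exact pw_mono (by omega) (root_pw hF hr hex hle G s l h6)
          · rw [t2 y hy1]
            apply hout
            intro hyU
            exact hy (Finset.mem_filter.2 ⟨hyU, hy1⟩))
        refine ⟨τ', r1, ?_, ?_, r4⟩
        · intro y hy
          have hy1 : y ∉ Y1 := fun h' => h'.1 hy
          have h5 := t2 y hy1
          rw [r2 y (by rw [h5]; exact hy), h5]
        · intro y
          rw [r3, t4]
  intro τ hτ heqs
  exact main _ Finset.univ le_rfl τ hτ heqs (fun y hy => absurd (Finset.mem_univ y) hy)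

end Pool.Agent.Helper85.FC
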