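import Pool.Agent.Helper85.FC.Defs

/-! Tokenisation of words with respect to a set of delimiters. -/

namespace Pool.Agent.Helper85.FC

open Classical in
/-- there is a mark at the start of `v` -/
def mk {A : Type} (D : Set (List A)) (v : List A) : Prop := ∃ d ∈ D, d <+: v

open Classical in
noncomputable def toks {A : Type} (D : Set (List A)) : List A → List A × List (List A)
  | [] => ([], [])
  | a :: v => if mk D (a :: v) then ([], (a :: (toks D v).1) :: (toks D v).2)
      else (a :: (toks D v).1, (toks D v).2)

open Classical in
noncomputable def cr {A : Type} (D : Set (List A)) : List A → List A → ℕ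
  | [], _ => 0
  | a :: u, v => cr D u v + if (mk D (a :: u ++ v) ∧ ¬ mk D (a :: u)) then 1 else 0

variable {A : Type} {D : Set (List A)}

theorem toks_flatten (v : List A) : (toks D v).1 ++ (toks D v).2.flatten = v := by
  induction v with
  | nil => simp [toks]
  | cons a v ih =>
    unfold toks
    split_ifs with h
    · simp [ih]
    · simp [ih]

theorem toks_mk {u : List A} (h : (toks D u).2 ≠ []) : ∃ s, s <:+ u ∧ mk D s := by
  induction u with
  | nil => simp [toks] at h
  | cons a u ih =>
    by_cases hm : mk D (a :: u)
    · exact ⟨_, List.suffix_rfl, hm⟩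
    · have : (toks D u).2 ≠ [] := by
        simpa [toks, hm] using h
      obtain ⟨s, hs, hs'⟩ := ih this
      exact ⟨s, hs.trans (List.suffix_cons a u), hs'⟩

theorem toks_of_unmarked {u : List A} (h : (toks D u).2 = []) : (toks D u).1 = u := by
  have := toks_flatten (D := D) u
  rw [h] at this
  simpa using this

/-- If `v` is marked then the first token of `x ++ v` lies in `x`. -/
theorem toks_fst_le (x v : List A) (h : mk D v) (hne : ∀ d ∈ D, d ≠ []) :
    (toks D (x ++ v)).1 <+: x := by
  induction x with
  | nil =>
    cases v with
    | nil =>
      obtain ⟨d, hd, hdv⟩ := h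
      exact absurd (List.prefix_nil.1 hdv) (hne d hd)
    | cons a v => simp [toks, h]
  | cons a x ih =>
    by_cases hm : mk D (a :: (x ++ v))
    · simp [toks, hm]
    · simp only [List.cons_append, toks, hm, if_false]
      exact (List.prefix_cons_inj a).2 ih

theorem toks_ne_of_mk (x v : List A) (h : mk D v) (hne : ∀ d ∈ D, d ≠ []) :
    (toks D (x ++ v)).2 ≠ [] := by
  induction x with
  | nil =>
    cases v with
    | nil =>
      obtain ⟨d, hd, hdv⟩ := h
      exact absurd (List.prefix_nil.1 hdv) (hne d hd)
    | cons a v => simp [toks, h]
  | cons a x ih =>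
    by_cases hm : mk D (a :: (x ++ v))
    · simp [toks, hm]
    · simpa [toks, hm] using ih

/-- If `v` is marked then the last token of `x ++ v` is a suffix of `v`. -/
theorem toks_last (x v : List A) (h : mk D v) (hne : ∀ d ∈ D, d ≠ []) {c : List (List A)}
    {B : List A} (hB : (toks D (x ++ v)).2 = c ++ [B]) : B <:+ v := by
  induction x generalizing c with
  | nil =>
    have := toks_flatten (D := D) v
    rw [List.nil_append] at hB
    rw [hB] at this
    refine ⟨(toks D v).1 ++ c.flatten, ?_⟩
    simpa using this
  | cons a x ih =>
    by_cases hm : mk D (a :: (x ++ v))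
    · simp only [List.cons_append, toks, hm, if_true] at hB
      cases c with
      | nil =>
        simp only [List.nil_append, List.cons.injEq] at hB
        exact absurd hB.2 (toks_ne_of_mk x v h hne)
      | cons c0 c =>
        simp only [List.cons_append, List.cons.injEq] at hB
        exact ih hB.2
    · simp only [List.cons_append, toks, hm, if_false] at hB
      exact ih hB

/-- `D` is an antichain for the factor order. -/
def Anti (D : Set (List A)) : Prop := ∀ d ∈ D, ∀ d' ∈ D, d <:+: d' → d = d'

theorem mk_append_iff (hD : Anti D) (a : A) (u v : List A) (h : (toks D u).2 ≠ []) :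
    mk D (a :: u ++ v) ↔ mk D (a :: u) := by
  constructor
  · rintro ⟨d, hd, hdp⟩
    by_contra hn
    have hlt : (a :: u).length < d.length := by
      by_contra hle
      push Not at hle
      exact hn ⟨d, hd, List.prefix_of_prefix_length_le hdp (List.prefix_append _ _) hle⟩
    have hpre : (a :: u) <+: d := List.prefix_of_prefix_length_le (List.prefix_append _ _) hdp hlt.le
    obtain ⟨s, hs, d', hd', hds⟩ := toks_mk h
    have h1 : d' <:+: d := by
      refine List.IsInfix.trans (hds.isInfix.trans hs.isInfix) ?_
      exact (List.suffix_cons a u).isInfix.trans hpre.isInfix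
    have := hD d' hd' d hd h1
    have hl := (hds.length_le).trans hs.length_le
    rw [this] at hl
    simp at hlt
    omega
  · rintro ⟨d, hd, hdp⟩
    exact ⟨d, hd, hdp.trans (List.prefix_append _ _)⟩

theorem mk_append_right {u : List A} (v : List A) (h : mk D u) : mk D (u ++ v) := by
  obtain ⟨d, hd, hdp⟩ := h
  exact ⟨d, hd, hdp.trans (List.prefix_append _ _)⟩

theorem cat_unmarked (u v : List A) (hu : (toks D u).2 = []) :
    ∃ A' X, toks D (u ++ v) = (A', X ++ (toks D v).2) ∧ A' ++ X.flatten = u ++ (toks D v).1 ∧
      X.length ≤ cr D u v := by
  induction u with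
  | nil => exact ⟨(toks D v).1, [], by simp, by simp, by simp⟩
  | cons a u ih =>
    have hm : ¬ mk D (a :: u) := by
      intro hm
      simp [toks, hm] at hu
    have hu' : (toks D u).2 = [] := by simpa [toks, hm] using hu
    obtain ⟨A', X, h1, h2, h3⟩ := ih hu'
    by_cases hc : mk D (a :: (u ++ v))
    · refine ⟨[], (a :: A') :: X, ?_, ?_, ?_⟩
      · simp [toks, hc, h1]
      · simp [← h2]
      · have hc' : mk D (a :: u ++ v) := by simpa using hc
        simp only [cr, hc', hm, not_false_eq_true, and_self, if_true, List.length_cons]
        omega
    · refine ⟨a :: A', X, ?_, ?_, ?_⟩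
      · simp [toks, hc, h1]
      · simp [← h2]
      · simp only [cr]
        omega

theorem cat_marked (hD : Anti D) (u v : List A) {c : List (List A)} {B : List A}
    (hu : (toks D u).2 = c ++ [B]) :
    ∃ X, toks D (u ++ v) = ((toks D u).1, c ++ X ++ (toks D v).2) ∧
      X.flatten = B ++ (toks D v).1 ∧ X.length ≤ 1 + cr D u v := by
  induction u generalizing c with
  | nil => simp [toks] at hu
  | cons a u ih =>
    by_cases hu' : (toks D u).2 = []
    · obtain ⟨A', X, h1, h2, h3⟩ := cat_unmarked u v hu'
      by_cases hm : mk D (a :: u)
      · have hc : mk D (a :: (u ++ v)) := mk_append_right v hm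
        have hu2 := hu
        simp only [toks, hm, if_true, hu'] at hu2
        cases c with
        | nil =>
          simp only [List.nil_append, List.cons.injEq, and_true] at hu2
          refine ⟨(a :: A') :: X, ?_, ?_, ?_⟩
          · simp [toks, hc, hm, h1]
          · simp only [List.flatten_cons, List.cons_append, h2]
            rw [← hu2, toks_of_unmarked hu']
            simp
          · simp only [cr, List.length_cons]
            omega
        | cons c0 c =>
          simp at hu2
      · simp only [toks, hm, if_false, hu'] at hu
        simp at hu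
    · have hiff := mk_append_iff hD a u v hu'
      by_cases hm : mk D (a :: u)
      · have hc : mk D (a :: (u ++ v)) := mk_append_right v hm
        simp only [toks, hm, if_true] at hu
        cases c with
        | nil =>
          simp only [List.nil_append, List.cons.injEq] at hu
          exact absurd hu.2 hu'
        | cons c0 c =>
          simp only [List.cons_append, List.cons.injEq] at hu
          obtain ⟨X, h1, h2, h3⟩ := ih hu.2
          refine ⟨X, ?_, h2, ?_⟩
          · simp [toks, hc, hm, h1, ← hu.1]
          · simp only [cr]
            omega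
      · have hc : ¬ mk D (a :: (u ++ v)) := fun h => hm (hiff.1 (by simpa using h))
        simp only [toks, hm, if_false] at hu
        obtain ⟨X, h1, h2, h3⟩ := ih hu
        refine ⟨X, ?_, h2, ?_⟩
        · simp [toks, hc, hm, h1]
        · simp only [cr]
          omega

end Pool.Agent.Helper85.FC
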